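import Pool.Agent.Lib.MP_d48993_lc.H30.Pay
import Pool.Agent.Lib.MP_d48993_lc.Cls
import Pool.Agent.Lib.MP_d48993_lc.Ops

/-!
# A node is meet-irreducible: the sets of reals (helper30)
-/

set_option autoImplicit false

namespace Pool.Agent.Lib.MP_d48993_lc.H30

open MP_8c048d_lc (pre join RecF Sig Pih Del Clo Cop join_even join_odd join_eta pre_succ
  length_pre pre_congr pre_getElem? pre_take)
open Hide (ev od)
open ResM (jn firstB cp_comp prefPair lePair eqPair)
open H84 (KK KK_clo KK_rec up_del up_trans up_self P2)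

/-- The class of the maps is closed. -/
theorem homC_clo {R T : List ℕ → Prop} (hR : ComputablePred R) (hT : ComputablePred T) :
    ClosedC (HomC R T) := by
  have hh : RecF (fun (s : List ℕ) F => hd F s) := by
    have h1 : RecF (fun (s : List ℕ) F => F (Encodable.encode s)) := RecF.at Computable.encode
    have h2 : Computable (fun n : ℕ => (Encodable.decode (α := List ℕ) n).getD []) :=
      Primrec.option_getD.to_comp.comp (Computable.decode) (Computable.const [])
    exact (RecF.comp h2 h1).congr fun a F => rfl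
  have e1 : Cop (fun (s : Unit × List ℕ) (_ : ℕ → ℕ) => R s.2) :=
    Cop.of_computable (cp_comp hR Computable.snd)
  have e2 : Cop (fun (s : Unit × List ℕ) F => T (hd F s.2)) :=
    Cop.of_recF (hh.comp₁ Computable.snd) hT
  have e3 : Cop (fun (s : Unit × List ℕ) F => s.2.length ≤ (hd F s.2).length) := by
    refine Cop.of_recF (φ := fun (s : Unit × List ℕ) F => (s.2.length, (hd F s.2).length))
      (p := fun x : ℕ × ℕ => x.1 ≤ x.2) ?_ lePair
    exact (RecF.of_computable (Computable.list_length.comp Computable.snd)).pair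
      (RecF.comp Computable.list_length (hh.comp₁ Computable.snd))
  have e4 : Cop (fun (z : (Unit × List ℕ) × ℕ) F => hd F (z.1.2.take z.2) <+: hd F z.1.2) := by
    have c2 : Computable (fun z : (Unit × List ℕ) × ℕ => z.1.2.take z.2) :=
      (Primrec.list_take (α := ℕ)).to_comp.comp Computable.snd
        (Computable.snd.comp Computable.fst)
    refine Cop.of_recF (φ := fun (z : (Unit × List ℕ) × ℕ) F =>
      (hd F (z.1.2.take z.2), hd F z.1.2)) (p := fun x : List ℕ × List ℕ => x.1 <+: x.2) ?_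
      prefPair
    exact (hh.comp₁ c2).pair (hh.comp₁ (Computable.snd.comp Computable.fst))
  have e5 : Cop (fun (s : Unit × List ℕ) F => ∀ k < s.2.length + 1,
      hd F (s.2.take k) <+: hd F s.2) :=
    Cop.ball (P := fun (s : Unit × List ℕ) k F => hd F (s.2.take k) <+: hd F s.2) e4
      (Computable.succ.comp (Computable.list_length.comp Computable.snd))
  exact Clo.all (P := fun (_ : Unit) (s : List ℕ) F => R s → T (hd F s) ∧
    s.length ≤ (hd F s).length ∧ ∀ k < s.length + 1, hd F (s.take k) <+: hd F s)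
    (Clo.of_cop (Cop.imp e1 (e2.and (e3.and e5))))

/-- A map applied to a path. -/
theorem hom_apply {R T : List ℕ → Prop} (hT : PC T) {g f : ℕ → ℕ} (hg : g ∈ HomC R T)
    (hf : ∀ k, R (pre f k)) : ∃ h, (∀ k, T (pre h k)) ∧ Red h (join g f) := by
  refine ⟨fun j => (hd g (pre f (j + 1))).getD j 0, fun k => ?_, ?_⟩
  · refine hT _ _ ?_ (hg _ (hf k)).1
    rw [List.prefix_iff_eq_take, length_pre]
    refine List.ext_getElem? fun i => ?_
    rw [pre_getElem?, List.getElem?_take]
    split_ifs with hi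
    · have h1 := (hg _ (hf (i + 1))).2.1
      rw [length_pre] at h1
      have h2 := (hg _ (hf k)).2.2 (i + 1) (by rw [length_pre]; omega)
      rw [pre_take, min_eq_left (by omega)] at h2
      obtain ⟨t, ht⟩ := h2
      rw [← ht, List.getElem?_append_left (by omega), List.getD_eq_getElem?_getD,
        List.getElem?_eq_getElem (by omega)]
      rfl
    · rfl
  · have h1 : RecF (fun (j : ℕ) G => (hd (ev G) (pre (od G) (j + 1))).getD j 0) := by
      have a1 : RecF (fun (j : ℕ) G => pre (od G) (j + 1)) := by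
        have b1 : RecF (fun (p : Unit × ℕ) F => pre (od F) p.2) :=
          RecF.pre' (Ψ := fun _ F => od F) Hide.recF_od
        exact b1.comp₁ (f := fun j : ℕ => ((), j + 1)) ((Computable.const ()).pair
          Computable.succ)
      have a2 : RecF (fun (s : List ℕ) G => hd (ev G) s) := by
        have b1 : RecF (fun (s : List ℕ) G => ev G (Encodable.encode s)) :=
          RecF.at (Hide.c_dbl Computable.encode)
        have b2 : Computable (fun n : ℕ => (Encodable.decode (α := List ℕ) n).getD []) :=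
          Primrec.option_getD.to_comp.comp (Computable.decode) (Computable.const [])
        exact (RecF.comp b2 b1).congr fun a F => rfl
      have a3 : RecF (fun (j : ℕ) G => hd (ev G) (pre (od G) (j + 1))) := RecF.bind a2 a1
      exact RecF.comp (g := fun x : List ℕ × ℕ => x.1.getD x.2 0)
        ((Primrec.list_getD 0).to_comp) (a3.pair (RecF.of_computable Computable.id))
    have h2 := red1 _ h1 (join g f)
    simp only [Hide.ev_join, Hide.od_join] at h2
    exact h2

theorem mem_paths {T : List ℕ → Prop} {f : ℕ → ℕ} : f ∈ paths T ↔ ∀ k, T (pre f k) := Iff.rfl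

theorem up_hom {R T : List ℕ → Prop} (hT : PC T) {X : ℕ → ℕ} (h1 : X ∈ Up (HomC R T))
    (h2 : X ∈ Up (paths R)) : X ∈ Up (paths T) := by
  obtain ⟨g, hg, hgX⟩ := h1
  obtain ⟨f, hf, hfX⟩ := h2
  obtain ⟨h, hh, hr⟩ := hom_apply hT hg hf
  exact ⟨h, hh, hr.trans (joinS.2.2 g f X hgX hfX)⟩

/-- the first entry of the two families -/
def two (b c : List ℕ → Bool) (x : ℕ × List ℕ) : Bool := bif zB x.1 then b x.2 else c x.2

theorem two_zero {b c : List ℕ → Bool} (s : List ℕ) : two b c (0, s) = b s := by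
  unfold two
  rw [zB_iff.2 rfl]
  rfl

theorem two_succ {b c : List ℕ → Bool} (i : ℕ) (s : List ℕ) : two b c (i + 1, s) = c s := by
  unfold two
  have : zB (i + 1) = false := by
    by_contra hc
    exact absurd (zB_iff.1 (by simpa using hc)) (Nat.succ_ne_zero i)
  rw [this]
  rfl

/-- a computable tree, as a function to `Bool` -/
structure BTree (b : List ℕ → Bool) : Prop where
  comp : Computable b
  tree : ∀ σ τ, σ <+: τ → b τ = true → b σ = true

theorem two_fam {b c : List ℕ → Bool} (hb : BTree b) (hc : BTree c) : Fam (two b c) := by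
  refine ⟨?_, fun n σ τ h h1 => ?_⟩
  · exact Computable.cond (comp_zB.comp Computable.fst) (hb.comp.comp Computable.snd)
      (hc.comp.comp Computable.snd)
  · cases n with
    | zero =>
      rw [two_zero] at h1 ⊢
      exact hb.tree _ _ h h1
    | succ n =>
      rw [two_succ] at h1 ⊢
      exact hc.tree _ _ h h1

theorem tr_zero (b c : List ℕ → Bool) : tr (two b c) 0 = fun s => b s = true := by
  funext s
  unfold tr
  rw [two_zero]

theorem tr_succ (b c : List ℕ → Bool) (i : ℕ) : tr (two b c) (i + 1) = fun s => c s = true := by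
  funext s
  unfold tr
  rw [two_succ]

theorem btree_true : BTree (fun _ => true) := ⟨Computable.const true, fun _ _ _ h => h⟩

/-- A nonempty closed class is the class of the paths through a computable tree. -/
theorem exists_btree {P : Set (ℕ → ℕ)} (hP : ClosedC P) (hne : P.Nonempty) :
    ∃ b : List ℕ → Bool, BTree b ∧ b [] = true ∧ P = paths (fun s => b s = true) := by
  obtain ⟨-, T, ⟨hT, hTpc⟩, hPT⟩ := (cls.1 P).2 ⟨hne, hP⟩
  obtain ⟨b, hb, hbT⟩ := ComputablePred.computable_iff.1 hT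
  subst hbT
  obtain ⟨f, hf⟩ := hne
  rw [hPT] at hf
  exact ⟨b, ⟨hb, fun σ τ h h1 => hTpc σ τ h h1⟩, hf 0, hPT⟩

theorem cpred {b : List ℕ → Bool} (hb : BTree b) : ComputablePred (fun s => b s = true) :=
  ComputablePred.computable_iff.2 ⟨b, hb.comp, rfl⟩

theorem sig_diff {P Q : Set (ℕ → ℕ)} (hP : ClosedC P) (hQ : ClosedC Q) :
    Sig (fun (_ : Unit) W => W ∈ Up P ∧ W ∉ Up Q) := by
  have key : ∀ {B : Set (ℕ → ℕ)}, ClosedC B → Del (fun (_ : Unit) W => W ∈ Up B) := by
    intro B hB
    obtain ⟨d, hd, hBd⟩ := hB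
    have e := up_del enum (d := fun (x : Unit × (ℕ × ℕ)) F => d (x.1, x.2.1) F)
      (hd.comp₁ (Computable.fst.pair (Computable.fst.comp Computable.snd)))
    refine e.congr fun a W => ?_
    have : {F | ∀ (n : ℕ), ∃ _m : ℕ, d (a, n) F = true} = B := by
      ext F
      have h1 : F ∈ B ↔ ∀ m, d ((), m) F = true := hBd () F
      rw [h1]
      constructor
      · intro h n
        obtain ⟨_, h⟩ := h n
        exact h
      · intro h n
        exact ⟨0, h n⟩
    show W ∈ Up {F | ∀ (n : ℕ), ∃ _m : ℕ, d (a, n) F = true} ↔ _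
    rw [this]
  exact ((key hP).and (key hQ).not).1

/-- **Theorem V**, for sets of reals. -/
theorem nodeV {M C₁ C₂ : Set (ℕ → ℕ)} (hM : ClosedC M) (hC₁ : ClosedC C₁) (hC₂ : ClosedC C₂)
    (hm : ∃ X ∈ Up M, X ∉ Up C₁ ∧ X ∉ Up C₂) (h12 : ∃ O ∈ Up C₁, O ∉ Up C₂)
    (h21 : ∃ O ∈ Up C₂, O ∉ Up C₁) :
    ∃ S, ClosedC S ∧ (∃ F ∈ Up M, F ∈ Up S ∧ F ∉ Up C₁ ∧ F ∉ Up C₂) ∧
      ∃ W, (W ∈ Up C₁ ∨ W ∈ Up C₂) ∧ ¬ (W ∈ Up C₁ ∧ W ∈ Up C₂) ∧ W ∉ Up S := by
  obtain ⟨X₀, ⟨X, hX, hXX⟩, hX1, hX2⟩ := hm
  obtain ⟨O₁, hO1, hO12⟩ := h12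
  obtain ⟨O₂, hO2, hO21⟩ := h21
  have hX1' : X ∉ Up C₁ := fun h => hX1 (up_trans h hXX)
  have hX2' : X ∉ Up C₂ := fun h => hX2 (up_trans h hXX)
  obtain ⟨b₁, hb₁, hb₁0, hCb₁⟩ := exists_btree hC₁ (by
    obtain ⟨f, hf, -⟩ := hO1
    exact ⟨f, hf⟩)
  obtain ⟨b₂, hb₂, hb₂0, hCb₂⟩ := exists_btree hC₂ (by
    obtain ⟨f, hf, -⟩ := hO2
    exact ⟨f, hf⟩)
  by_cases hQ : X ∈ Up (HomC (fun s => b₁ s = true) (fun s => b₂ s = true))
  · -- the class of the maps
    refine ⟨HomC (fun s => b₁ s = true) (fun s => b₂ s = true),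
      homC_clo (cpred hb₁) (cpred hb₂), ⟨X, up_self hX, hQ, hX1', hX2'⟩, O₁, Or.inl hO1,
      fun h => hO12 h.2, fun h => ?_⟩
    apply hO12
    rw [hCb₂]
    refine up_hom hb₂.tree h ?_
    rw [← hCb₁]
    exact hO1
  · -- hiding
    have hXp : ∀ i, X ∉ Up (HomC (tr (two (fun _ => true) b₁) i) (tr (two b₁ b₂) i)) := by
      intro i h
      cases i with
      | zero =>
        rw [tr_zero, tr_zero] at h
        apply hX1'
        rw [hCb₁]
        refine up_hom hb₁.tree h ⟨fun _ => 0, fun k => rfl, ?_⟩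
        exact red1 (fun _ _ => 0) (RecF.of_computable (Computable.const 0)) X
      | succ i =>
        rw [tr_succ, tr_succ] at h
        exact hQ h
    have hOp : ¬ Pays (two (fun _ => true) b₁) (two b₁ b₂) O₂ := by
      rintro ⟨i, h1, h2⟩
      cases i with
      | zero =>
        rw [tr_zero] at h2
        rw [hCb₁] at hO21
        exact hO21 h2
      | succ i =>
        rw [tr_succ] at h1
        rw [hCb₁] at hO21
        exact hO21 h1
    have hT0 : ∀ i, two b₁ b₂ (i, []) = true := by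
      intro i
      cases i with
      | zero => rw [two_zero]; exact hb₁0
      | succ i => rw [two_succ]; exact hb₂0
    obtain ⟨S, hS, -, ⟨F, hF, hXF, hFi⟩, W, hW, hWS⟩ :=
      exists_class (two_fam btree_true hb₁) (two_fam hb₁ hb₂) hT0 hM (sig_diff hC₂ hC₁) hX hXp
        (O := O₂) ⟨hO2, hO21⟩ hOp
    refine ⟨S, hS, ⟨F, ⟨X, hX, hXF⟩, hF, ?_, ?_⟩, W, Or.inr hW.1, fun h => hW.2 h.1, hWS⟩
    · have := hFi 0
      rw [tr_zero, ← hCb₁] at this
      exact this
    · have := hFi 1
      rw [tr_succ, ← hCb₂] at this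
      exact this

end Pool.Agent.Lib.MP_d48993_lc.H30
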