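import Pool.Agent.Lib.MP_d48993_lc.H30.Hom

/-!
# The hiding lemma with payments (helper30)
-/

set_option autoImplicit false

namespace Pool.Agent.Lib.MP_d48993_lc.H30

open MP_8c048d_lc (pre join RecF Sig Clo Cop join_even join_odd join_eta pre_succ length_pre
  pre_congr pre_getElem? pre_take)
open Hide (ev od DD dd_spec cop_dd exists_union)
open ResM (jn firstB cp_comp prefPair lePair eqPair)

variable {Φ : ℕ → List ℕ → List ℕ} {bR bT : ℕ × List ℕ → Bool}

/-- the state of the parse: the string, the witness, the flag -/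
abbrev PS : Type := List ℕ × List ℕ × Bool

/-- is one -/
def oneB (x : ℕ) : Bool := decide (x = 1)

theorem oneB_iff {s : ℕ} : oneB s = true ↔ s = 1 := by simp [oneB]

theorem comp_oneB : Computable oneB :=
  ((PrimrecRel.comp (Primrec.eq (α := ℕ)) Primrec.id (Primrec.const 1)).decide.to_comp :)

attribute [irreducible] oneB

/-- the new state of the parse, from the end of the play -/
def fin (dd : List ℕ → (ℕ → ℕ) → Bool) (p : PS × St) (F : ℕ → ℕ) : PS :=
  (p.2.1 ++ [nx F p.2.1], p.1.2.1 ++ [nx F p.2.1],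
    (p.1.2.2 && oneB p.2.2.2) && dd (p.1.2.1 ++ [nx F p.2.1]) F)

/-- one step of the parse; the argument is `(t, k, state)` -/
def pastep (Φ : ℕ → List ℕ → List ℕ) (bR bT : ℕ × List ℕ → Bool) (dd : List ℕ → (ℕ → ℕ) → Bool)
    (p : ℕ × ℕ × PS) (F : ℕ → ℕ) : PS :=
  fin dd (p.2.2, pl Φ bR bT ((p.1, p.2.1, p.2.2.1), p.1) F) F

/-- the parse of stage `p.1` up to `p.2` -/
def par (Φ : ℕ → List ℕ → List ℕ) (bR bT : ℕ × List ℕ → Bool) (dd : List ℕ → (ℕ → ℕ) → Bool)
    (p : ℕ × ℕ) (F : ℕ → ℕ) : PS :=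
  Nat.rec (motive := fun _ => PS) ([], [], dd [] F)
    (fun k r => pastep Φ bR bT dd (p.1, k, r) F) p.2

theorem par_zero (dd : List ℕ → (ℕ → ℕ) → Bool) (t : ℕ) (F : ℕ → ℕ) :
    par Φ bR bT dd (t, 0) F = ([], [], dd [] F) := rfl

theorem par_succ (dd : List ℕ → (ℕ → ℕ) → Bool) (t n : ℕ) (F : ℕ → ℕ) :
    par Φ bR bT dd (t, n + 1) F = pastep Φ bR bT dd (t, n, par Φ bR bT dd (t, n) F) F := rfl

theorem recF_fin {dd : List ℕ → (ℕ → ℕ) → Bool} (hdd : RecF dd) : RecF (fin dd) := by
  have c1 : Computable (fun p : PS × St => p.2.1) := Computable.fst.comp Computable.snd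
  have c2 : Computable (fun p : PS × St => p.1.2.1) :=
    Computable.fst.comp (Computable.snd.comp Computable.fst)
  have c3 : Computable (fun p : PS × St => p.1.2.2) :=
    Computable.snd.comp (Computable.snd.comp Computable.fst)
  have c4 : Computable (fun p : PS × St => p.2.2.2) :=
    Computable.snd.comp (Computable.snd.comp Computable.snd)
  have e1 : RecF (fun (p : PS × St) F => nx F p.2.1) :=
    recF_nx (f := fun (p : PS × St) _ => p.2.1) (RecF.of_computable c1)
  have e2 : RecF (fun (p : PS × St) F => p.2.1 ++ [nx F p.2.1]) :=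
    recF_snoc (f := fun (p : PS × St) _ => p.2.1) (RecF.of_computable c1) e1
  have e3 : RecF (fun (p : PS × St) F => p.1.2.1 ++ [nx F p.2.1]) :=
    recF_snoc (f := fun (p : PS × St) _ => p.1.2.1) (RecF.of_computable c2) e1
  have e4 : RecF (fun (p : PS × St) F => dd (p.1.2.1 ++ [nx F p.2.1]) F) := RecF.bind hdd e3
  have c5 := comp_and.comp (c3.pair (comp_oneB.comp c4))
  have e5 : RecF (fun (p : PS × St) (_ : ℕ → ℕ) => p.1.2.2 && oneB p.2.2.2) :=
    RecF.of_computable c5
  have e6 : RecF (fun (p : PS × St) F =>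
      (p.1.2.2 && oneB p.2.2.2) && dd (p.1.2.1 ++ [nx F p.2.1]) F) :=
    RecF.comp (g := fun x : Bool × Bool => x.1 && x.2) comp_and (e5.pair e4)
  exact e2.pair (e3.pair e6)

theorem recF_par (hG : Game Φ bR bT) {dd : List ℕ → (ℕ → ℕ) → Bool} (hdd : RecF dd) :
    RecF (par Φ bR bT dd) := by
  have e1 : RecF (fun (_ : ℕ) F => (([], [], dd [] F) : PS)) :=
    RecF.pair (RecF.of_computable (Computable.const _)) (RecF.pair
      (RecF.of_computable (Computable.const _)) (hdd.comp₁ (f := fun _ : ℕ => ([] : List ℕ))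
        (Computable.const _)))
  have e2 : RecF (fun (p : ℕ × ℕ × PS) F => pl Φ bR bT ((p.1, p.2.1, p.2.2.1), p.1) F) :=
    (recF_pl hG.comp hG.compR hG.compT).comp₁ (f := fun p : ℕ × ℕ × PS =>
      ((p.1, p.2.1, p.2.2.1), p.1)) ((Computable.fst.pair ((Computable.fst.comp
        Computable.snd).pair (Computable.fst.comp (Computable.snd.comp Computable.snd)))).pair
          Computable.fst)
  have e3 : RecF (pastep Φ bR bT dd) :=
    RecF.bind (recF_fin hdd) (f := fun (p : ℕ × ℕ × PS) F =>
      (p.2.2, pl Φ bR bT ((p.1, p.2.1, p.2.2.1), p.1) F))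
      ((RecF.of_computable (Computable.snd.comp Computable.snd)).pair e2)
  exact RecF.natRec e1 e3

/-- The hiding lemma with payments.

The requirement number `n` is: no path of `T n` is computed by `Φ n` from the real that is built.
The real `(Y, Z)` pays with a path of `R n` if it does not play to the end at level `n`. -/
theorem hideA (hG : Game Φ bR bT) (Θ : (ℕ → ℕ) → Prop) (hΘ : Sig (fun (_ : Unit) Y => Θ Y)) :
    ∃ D : ℕ × ℕ → (ℕ → ℕ) → Bool, RecF D ∧
      (∀ Y, Θ Y → (∀ n, Y ∉ Up (HomC (fun s => bR (n, s) = true) (fun s => bT (n, s) = true))) →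
        ∃ Z, (∀ n, ∃ m, D (n, m) (join Y Z) = true) ∧
          ∀ n g, (∀ k, bT (n, pre g k) = true) → ¬ CompBy (Φ n) (join Y Z) g) ∧
      ∀ F, (∀ n, ∃ m, D (n, m) F = true) →
        (∃ n, (∃ f, (∀ k, bR (n, pre f k) = true) ∧ Red f F) ∧
          ∃ g, (∀ k, bT (n, pre g k) = true) ∧ CompBy (Φ n) F g) ∨ Θ (ev F) := by
  classical
  obtain ⟨d, hd, hdΘ⟩ := hΘ
  obtain ⟨q, hq, hq1, hq2⟩ := hd.mono
  obtain ⟨dd, hdd, hdd1⟩ := cop_dd hq
  have hdd2 : ∀ τ F, DD q (ev F) τ ↔ dd τ F = true := hdd1
  let D₂ : ℕ × ℕ → (ℕ → ℕ) → Bool := fun p F =>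
    leB (p.1.unpair.2, p.2) && (par Φ bR bT dd (p.2, p.1.unpair.1) F).2.2
  have hD₂ : RecF D₂ := by
    have cu1 : Computable (fun m : ℕ => m.unpair.1) := (Primrec.fst.comp Primrec.unpair).to_comp
    have cu2 : Computable (fun m : ℕ => m.unpair.2) := (Primrec.snd.comp Primrec.unpair).to_comp
    have e1 : RecF (fun (p : ℕ × ℕ) (_ : ℕ → ℕ) => leB (p.1.unpair.2, p.2)) :=
      RecF.of_computable (comp_leB.comp ((cu2.comp Computable.fst).pair Computable.snd))
    have e2 : RecF (fun (p : ℕ × ℕ) F => (par Φ bR bT dd (p.2, p.1.unpair.1) F).2.2) :=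
      RecF.comp (Computable.snd.comp Computable.snd) ((recF_par hG hdd).comp₁
        (f := fun p : ℕ × ℕ => (p.2, p.1.unpair.1))
        (Computable.pair Computable.snd (cu1.comp Computable.fst)))
    exact RecF.comp (g := fun x : Bool × Bool => x.1 && x.2) comp_and (e1.pair e2)
  have hmem : ∀ F : ℕ → ℕ, (∀ n, ∃ m, D₂ (n, m) F = true) ↔
      ∀ n m, ∃ t ≥ m, (par Φ bR bT dd (t, n) F).2.2 = true := by
    intro F
    constructor
    · intro h n m
      obtain ⟨t, ht⟩ := h (Nat.pair n m)
      have h1 : (leB ((Nat.pair n m).unpair.2, t) &&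
        (par Φ bR bT dd (t, (Nat.pair n m).unpair.1) F).2.2) = true := ht
      rw [Nat.unpair_pair, Bool.and_eq_true] at h1
      exact ⟨t, leB_iff.1 h1.1, h1.2⟩
    · intro h n
      obtain ⟨t, ht1, ht2⟩ := h n.unpair.1 n.unpair.2
      refine ⟨t, ?_⟩
      show (leB (n.unpair.2, t) && (par Φ bR bT dd (t, n.unpair.1) F).2.2) = true
      rw [ht2, Bool.and_true]
      exact leB_iff.2 ht1
  refine ⟨D₂, hD₂, ?_, ?_⟩
  · -- a member outside
    intro Y₀ hY₀ hY₀U
    obtain ⟨f, hf⟩ := (hdΘ () Y₀).1 hY₀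
    have hDD := (dd_spec hq1 hq2 Y₀ f).1 hf
    have hwin : ∀ n σ, Win Φ bR bT n σ Y₀ := fun n σ =>
      (win_or_hom hG n σ Y₀).resolve_right (hY₀U n)
    choose r J u hr1 hr2 using hwin
    let S : ℕ → List ℕ := fun n => Nat.rec (motive := fun _ => List ℕ) []
      (fun k s => r k s ++ [f k]) n
    have hS : ∀ n, S (n + 1) = r n (S n) ++ [f n] := fun n => rfl
    have hS1 : ∀ n, S n <+: S (n + 1) := by
      intro n
      rw [hS]
      exact (hr1 n (S n)).trans (List.prefix_append _ _)
    have hS2 : ∀ n, n ≤ (S n).length := by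
      intro n
      induction n with
      | zero => exact Nat.zero_le _
      | succ n ih =>
        rw [hS, List.length_append, List.length_singleton]
        have := (hr1 n (S n)).length_le
        omega
    obtain ⟨Z, hZ⟩ := exists_union hS1 hS2
    have hZr : ∀ n, r n (S n) = pre Z (r n (S n)).length ∧ Z (r n (S n)).length = f n := by
      intro n
      have h1 := hZ (n + 1)
      rw [hS, List.length_append, List.length_singleton, pre_succ] at h1
      have h2 := List.append_inj' h1 rfl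
      exact ⟨h2.1.symm, by simpa using h2.2⟩
    refine ⟨Z, (hmem (join Y₀ Z)).2 fun n m => ?_, fun n => (hr2 n (S n) Z (hZr n).1).2⟩
    have key : ∀ n, ∃ t₀, ∀ t ≥ t₀,
        par Φ bR bT dd (t, n) (join Y₀ Z) = (S n, pre f n, true) := by
      intro n
      induction n with
      | zero =>
        refine ⟨0, fun t _ => ?_⟩
        rw [par_zero]
        have h1 : dd [] (join Y₀ Z) = true := by
          rw [← hdd2, Hide.ev_join]
          exact hDD 0
        rw [h1]
        rfl
      | succ n ih =>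
        obtain ⟨t₀, h0⟩ := ih
        have h1 := (hr2 n (S n) Z (hZr n).1).1
        obtain ⟨t₁, h2⟩ := lpl_stable (Φ := Φ) (bR := bR) (bT := bT) (n := n) (σ := S n)
          (F := join Y₀ Z) (J := J n (S n)) (by rw [h1]; exact one_ne_zero)
        refine ⟨max t₀ t₁, fun t ht => ?_⟩
        rw [par_succ, h0 t (le_trans (le_max_left _ _) ht)]
        unfold pastep
        simp only
        rw [h2 t (le_trans (le_max_right _ _) ht), h1]
        unfold fin
        simp only
        rw [nx_join, (hZr n).2, ← hS, ← pre_succ]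
        have h3 : dd (pre f (n + 1)) (join Y₀ Z) = true := by
          rw [← hdd2, Hide.ev_join]
          exact hDD (n + 1)
        rw [h3, oneB_iff.2 rfl]
        rfl
    obtain ⟨t₀, h0⟩ := key n
    exact ⟨max t₀ m, le_max_right _ _, by rw [h0 _ (le_max_left _ _)]⟩
  · -- the members pay or compute a member of `Θ`
    intro F hF
    by_contra hcon
    push Not at hcon
    obtain ⟨hpay, hnΘ⟩ := hcon
    apply hnΘ
    have hF' := (hmem F).1 hF
    -- all plays end
    have hend : ∀ n σ, σ = pre (od F) σ.length → ∃ j, (lpl Φ bR bT n σ F j).2.2 ≠ 0 := by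
      intro n σ hσ
      by_contra hc
      push Not at hc
      obtain ⟨h1, g, h2, h3⟩ := infinite_play hG hσ hc
      exact hpay n h1 g h2 h3
    have key : ∀ n, ∃ x : List ℕ × List ℕ, x.1 = pre (od F) x.1.length ∧ dd x.2 F = true ∧
        ∃ t₀, ∀ t ≥ t₀, par Φ bR bT dd (t, n) F = (x.1, x.2, true) := by
      intro n
      induction n with
      | zero =>
        obtain ⟨t, -, ht⟩ := hF' 0 0
        rw [par_zero] at ht
        have ht' : dd [] F = true := ht
        exact ⟨([], []), rfl, ht', 0, fun t _ => by rw [par_zero, ht']⟩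
      | succ n ih =>
        obtain ⟨x, hx1, hx2, t₀, hx3⟩ := ih
        obtain ⟨j, hj⟩ := hend n x.1 hx1
        obtain ⟨t₁, h2⟩ := lpl_stable hj
        have h3 : ∀ t ≥ max t₀ t₁, par Φ bR bT dd (t, n + 1) F =
            fin dd ((x.1, x.2, true), lpl Φ bR bT n x.1 F j) F := by
          intro t ht
          rw [par_succ, hx3 t (le_trans (le_max_left _ _) ht)]
          unfold pastep
          simp only
          rw [h2 t (le_trans (le_max_right _ _) ht)]
        obtain ⟨t, ht, h4⟩ := hF' (n + 1) (max t₀ t₁)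
        rw [h3 t ht] at h4
        unfold fin at h4
        simp only [Bool.true_and, Bool.and_eq_true] at h4
        refine ⟨((lpl Φ bR bT n x.1 F j).1 ++ [nx F (lpl Φ bR bT n x.1 F j).1],
          x.2 ++ [nx F (lpl Φ bR bT n x.1 F j).1]), ?_, h4.2, max t₀ t₁, fun t ht => ?_⟩
        · exact pre_snoc (lpl_one hx1 (oneB_iff.1 h4.1))
        · rw [h3 t ht]
          unfold fin
          simp only [Bool.true_and]
          rw [h4.1, h4.2]
          rfl
    choose x hx1 hx2 t₀ hx3 using key
    have hx0 : (x 0).2 = [] := by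
      have h1 := hx3 0 (t₀ 0) le_rfl
      rw [par_zero] at h1
      simp only [Prod.mk.injEq] at h1
      exact h1.2.1.symm
    have hxs : ∀ n, ∃ k, (x (n + 1)).2 = (x n).2 ++ [k] := by
      intro n
      have h1 := hx3 (n + 1) (max (t₀ n) (t₀ (n + 1))) (le_max_right _ _)
      rw [par_succ, hx3 n _ (le_max_left _ _)] at h1
      unfold pastep fin at h1
      simp only [Prod.mk.injEq] at h1
      exact ⟨_, h1.2.1.symm⟩
    have hlen : ∀ n, (x n).2.length = n := by
      intro n
      induction n with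
      | zero => rw [hx0]; rfl
      | succ n ih =>
        obtain ⟨k, hk⟩ := hxs n
        rw [hk, List.length_append, ih]
        rfl
    obtain ⟨f, hf⟩ := exists_union (S := fun n => (x n).2) (fun n => by
      obtain ⟨k, hk⟩ := hxs n
      rw [hk]
      exact List.prefix_append _ _) (fun n => (hlen n).ge)
    refine (hdΘ () (ev F)).2 ⟨f, ?_⟩
    rw [dd_spec hq1 hq2]
    intro n
    have h1 := hf n
    simp only [hlen] at h1
    rw [h1, hdd2]
    exact hx2 n

end Pool.Agent.Lib.MP_d48993_lc.H30
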