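import Pool.Agent.Lib.MP_d48993_lc.H30.Win

/-!
# Hiding with payments: the coder wins, or there is a map from `R n` to `T n` (helper30)
-/

set_option autoImplicit false

namespace Pool.Agent.Lib.MP_d48993_lc.H30

open MP_8c048d_lc (pre join RecF Sig Clo Cop join_even join_odd join_eta pre_succ length_pre
  pre_congr pre_getElem? pre_take)
open Hide (ev od)
open ResM (jn firstB cp_comp prefPair lePair eqPair)

variable {Φ : ℕ → List ℕ → List ℕ} {bR bT : ℕ × List ℕ → Bool}

/-- the string of the play with the choices `u`, after `j` steps -/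
noncomputable def fp (Φ : ℕ → List ℕ → List ℕ) (n : ℕ) (σ : List ℕ) (Y : ℕ → ℕ) (u : List ℕ) :
    ℕ → List ℕ
  | 0 => σ
  | j + 1 => ofN ((lookL Φ (n, fp Φ n σ Y u j ++ [u.getD j 0], j + 1) Y).getD 0)

theorem fp_congr {n : ℕ} {σ : List ℕ} {Y : ℕ → ℕ} {u v : List ℕ} {j : ℕ}
    (h : ∀ i < j, u.getD i 0 = v.getD i 0) : fp Φ n σ Y u j = fp Φ n σ Y v j := by
  induction j with
  | zero => rfl
  | succ j ih =>
    unfold fp
    rw [ih fun i hi => h i (by omega), h j (by omega)]

/-- all the answers of the machine exist, up to the step `j`, and all the values are in `T n` -/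
def Ok (Φ : ℕ → List ℕ → List ℕ) (bT : ℕ × List ℕ → Bool) (n : ℕ) (σ : List ℕ) (Y : ℕ → ℕ)
    (u : List ℕ) (j : ℕ) : Prop :=
  ∀ i < j, (lookL Φ (n, fp Φ n σ Y u i ++ [u.getD i 0], i + 1) Y).isSome = true ∧
    bT (n, Φ n (jn Y (fp Φ n σ Y u (i + 1)))) = true

theorem Ok.prev {n : ℕ} {σ : List ℕ} {Y : ℕ → ℕ} {u : List ℕ} {j i : ℕ}
    (h : Ok Φ bT n σ Y u j) (hij : i ≤ j) : Ok Φ bT n σ Y u i := fun k hk => h k (by omega)

theorem ok_congr {n : ℕ} {σ : List ℕ} {Y : ℕ → ℕ} {u v : List ℕ} {j : ℕ}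
    (h : ∀ i < j, u.getD i 0 = v.getD i 0) (hu : Ok Φ bT n σ Y u j) : Ok Φ bT n σ Y v j := by
  intro i hi
  obtain ⟨h1, h2⟩ := hu i hi
  rw [fp_congr (Φ := Φ) (n := n) (σ := σ) (Y := Y) (u := u) (v := v) (j := i)
    fun k hk => h k (by omega), h i hi] at h1
  rw [fp_congr (Φ := Φ) (n := n) (σ := σ) (Y := Y) (u := u) (v := v) (j := i + 1)
    fun k hk => h k (by omega)] at h2
  exact ⟨h1, h2⟩

theorem ok_step {n : ℕ} {σ : List ℕ} {Y : ℕ → ℕ} {u : List ℕ} {i : ℕ}
    (h : (lookL Φ (n, fp Φ n σ Y u i ++ [u.getD i 0], i + 1) Y).isSome = true) :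
    fp Φ n σ Y u i ++ [u.getD i 0] <+: fp Φ n σ Y u (i + 1) ∧
      i + 1 ≤ (Φ n (jn Y (fp Φ n σ Y u (i + 1)))).length := by
  obtain ⟨j, hj⟩ := Option.isSome_iff_exists.1 h
  have h1 := lookL_spec hj
  have h2 : fp Φ n σ Y u (i + 1) = ofN j := by
    show ofN ((lookL Φ (n, fp Φ n σ Y u i ++ [u.getD i 0], i + 1) Y).getD 0) = _
    rw [hj]
    rfl
  rw [h2]
  exact h1

theorem fp_mono {n : ℕ} {σ : List ℕ} {Y : ℕ → ℕ} {u : List ℕ} {i j : ℕ}
    (h : Ok Φ bT n σ Y u j) (hij : i ≤ j) : fp Φ n σ Y u i <+: fp Φ n σ Y u j := by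
  induction j, hij using Nat.le_induction with
  | base => exact List.prefix_rfl
  | succ j _ ih =>
    exact (ih (h.prev (by omega))).trans ((List.prefix_append _ _).trans
      (ok_step (h j (by omega)).1).1)

theorem entry_of_prefix {Z : ℕ → ℕ} {s t : List ℕ} {k : ℕ} (ht : t = pre Z t.length)
    (h : s ++ [k] <+: t) : Z s.length = k := by
  have h1 := pre_of_prefix ht h
  rw [List.length_append, List.length_singleton, pre_succ] at h1
  have h2 := List.append_inj' h1 rfl
  simpa using h2.2.symm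

/-- one step of a play that goes on -/
theorem lstep_some {n : ℕ} {Y Z : ℕ → ℕ} {s u : List ℕ} {k j : ℕ} (hk : Z s.length = k)
    (hR : bR (n, u ++ [k]) = true)
    (hj : lookL Φ (n, s ++ [k], u.length + 1) Y = some j)
    (hp : ofN j = pre Z (ofN j).length) :
    lstep Φ bR bT n (s, u, 0) (join Y Z) =
      (ofN j, u ++ [k], bif bT (n, Φ n (jn Y (ofN j))) then 0 else 1) := by
  have hc : cx (join Y Z) n (s, u, 0) = (n, s ++ [k], u.length + 1) := by
    unfold cx
    simp only [nx_join, hk]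
  unfold lstep
  rw [hc, Hide.ev_join, hj]
  unfold nst
  simp only [zB_iff.2 (rfl : (0 : ℕ) = 0), nx_join, hk, hR, cond_true, Option.isSome_some,
    Option.getD_some]
  unfold cont
  simp only [Hide.od_join, Hide.ev_join]
  rw [eqB_iff.2 hp]
  rfl

theorem lstep_none {n : ℕ} {Y Z : ℕ → ℕ} {s u : List ℕ} {k : ℕ} (hk : Z s.length = k)
    (hR : bR (n, u ++ [k]) = true)
    (hj : lookL Φ (n, s ++ [k], u.length + 1) Y = none) :
    lstep Φ bR bT n (s, u, 0) (join Y Z) = (s ++ [k], u ++ [k], 1) := by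
  have hc : cx (join Y Z) n (s, u, 0) = (n, s ++ [k], u.length + 1) := by
    unfold cx
    simp only [nx_join, hk]
  unfold lstep
  rw [hc, Hide.ev_join, hj]
  unfold nst
  simp only [zB_iff.2 (rfl : (0 : ℕ) = 0), nx_join, hk, hR, cond_true, Option.isSome_none,
    cond_false]

theorem run {n : ℕ} {σ : List ℕ} {Y Z : ℕ → ℕ} {u : List ℕ} {j : ℕ} (hj : j ≤ u.length)
    (hok : Ok Φ bT n σ Y u j) (hR : ∀ i ≤ j, i ≠ 0 → bR (n, u.take i) = true)
    (hZ : fp Φ n σ Y u j = pre Z (fp Φ n σ Y u j).length) :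
    lpl Φ bR bT n σ (join Y Z) j = (fp Φ n σ Y u j, u.take j, 0) := by
  induction j with
  | zero => rw [List.take_zero]; rfl
  | succ j ih =>
    have h1 := hok j (by omega)
    have h2 := ok_step h1.1
    have h3 := ih (by omega) (hok.prev (by omega)) (fun i hi => hR i (by omega))
      (pre_of_prefix hZ ((List.prefix_append _ _).trans h2.1))
    have h4 : u.take j ++ [u.getD j 0] = u.take (j + 1) := by
      rw [List.take_add_one, List.getD_eq_getElem?_getD, List.getElem?_eq_getElem (by omega)]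
      rfl
    obtain ⟨i, hi⟩ := Option.isSome_iff_exists.1 h1.1
    have h5 : fp Φ n σ Y u (j + 1) = ofN i := by
      show ofN ((lookL Φ (n, fp Φ n σ Y u j ++ [u.getD j 0], j + 1) Y).getD 0) = _
      rw [hi]
      rfl
    have hlen : (u.take j).length = j := by
      rw [List.length_take]
      omega
    rw [lpl_succ, h3, lstep_some (k := u.getD j 0) (j := i) (entry_of_prefix hZ h2.1)
      (by rw [h4]; exact hR _ le_rfl (by omega)) (by rw [hlen]; exact hi)
      (by rw [← h5]; exact hZ), ← h5, h4, h1.2]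
    rfl

/-- the coder has a win -/
def Win (Φ : ℕ → List ℕ → List ℕ) (bR bT : ℕ × List ℕ → Bool) (n : ℕ) (σ : List ℕ)
    (Y : ℕ → ℕ) : Prop :=
  ∃ (s : List ℕ) (J : ℕ) (u : List ℕ), σ <+: s ∧ ∀ Z, s = pre Z s.length →
    lpl Φ bR bT n σ (join Y Z) J = (s, u, 1) ∧
      ∀ g, (∀ k, bT (n, pre g k) = true) → ¬ CompBy (Φ n) (join Y Z) g

theorem ok_of_not_win (hG : Game Φ bR bT) {n : ℕ} {σ : List ℕ} {Y : ℕ → ℕ}
    (hw : ¬ Win Φ bR bT n σ Y) (u : List ℕ) :
    bR (n, u) = true → Ok Φ bT n σ Y u u.length := by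
  induction u using List.reverseRecOn with
  | nil => exact fun _ i hi => absurd hi (Nat.not_lt_zero _)
  | append_singleton v k ih =>
    intro hu
    have hv : bR (n, v) = true := hG.treeR n _ _ (List.prefix_append _ _) hu
    have hokv := ih hv
    have hcg : ∀ i < v.length, v.getD i 0 = (v ++ [k]).getD i 0 := by
      intro i hi
      rw [List.getD_eq_getElem?_getD, List.getD_eq_getElem?_getD, List.getElem?_append_left hi]
    have hok1 : Ok Φ bT n σ Y (v ++ [k]) v.length := ok_congr hcg hokv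
    have hfp : fp Φ n σ Y (v ++ [k]) v.length = fp Φ n σ Y v v.length := (fp_congr hcg).symm
    have hk : (v ++ [k]).getD v.length 0 = k := by
      rw [List.getD_eq_getElem?_getD, List.getElem?_append_right le_rfl]
      simp
    have hσ : σ <+: fp Φ n σ Y v v.length := fp_mono hokv (Nat.zero_le _)
    have hRv : ∀ i ≤ v.length, i ≠ 0 → bR (n, v.take i) = true := fun i _ _ =>
      hG.treeR n _ _ (List.take_prefix _ _) hv
    have htk : v.take v.length = v := List.take_length
    -- the play up to `v`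
    have hrun : ∀ Z, fp Φ n σ Y v v.length = pre Z (fp Φ n σ Y v v.length).length →
        lpl Φ bR bT n σ (join Y Z) v.length = (fp Φ n σ Y v v.length, v, 0) := by
      intro Z hZ
      have h1 := run (bR := bR) le_rfl hokv hRv hZ
      rw [htk] at h1
      exact h1
    have hsome : (lookL Φ (n, fp Φ n σ Y (v ++ [k]) v.length ++ [(v ++ [k]).getD v.length 0],
        v.length + 1) Y).isSome = true := by
      rw [hfp, hk]
      by_contra hc
      have hnone : lookL Φ (n, fp Φ n σ Y v v.length ++ [k], v.length + 1) Y = none := by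
        simpa using hc
      apply hw
      refine ⟨fp Φ n σ Y v v.length ++ [k], v.length + 1, v ++ [k],
        hσ.trans (List.prefix_append _ _), fun Z hZ => ⟨?_, fun g _ hcg => ?_⟩⟩
      · rw [lpl_succ, hrun Z (pre_of_prefix hZ (List.prefix_append _ _)),
          lstep_none (entry_of_prefix hZ List.prefix_rfl) hu hnone]
      · obtain ⟨k', hk'⟩ := hcg.2 (v.length + 1)
        have h1 := lookL_fail hnone
          (pre Z (max k' (fp Φ n σ Y v v.length ++ [k]).length)) (by
            conv_lhs => rw [hZ]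
            exact ResM.pre_prefix Z (le_max_right _ _))
        rw [ResM.jn_pre] at h1
        have h2 : pre (join Y Z) k' <+: pre (join Y Z)
            (2 * max k' (fp Φ n σ Y v v.length ++ [k]).length) := by
          refine ResM.pre_prefix _ ?_
          have := le_max_left k' (fp Φ n σ Y v v.length ++ [k]).length
          omega
        have h3 := (hG.mono n _ _ h2).length_le
        omega
    have hT : bT (n, Φ n (jn Y (fp Φ n σ Y (v ++ [k]) (v.length + 1)))) = true := by
      by_contra hc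
      have hcF : bT (n, Φ n (jn Y (fp Φ n σ Y (v ++ [k]) (v.length + 1)))) = false := by
        simpa using hc
      obtain ⟨i, hi⟩ := Option.isSome_iff_exists.1 hsome
      have hst := ok_step hsome
      have h5 : fp Φ n σ Y (v ++ [k]) (v.length + 1) = ofN i := by
        show ofN ((lookL Φ (n, fp Φ n σ Y (v ++ [k]) v.length ++
          [(v ++ [k]).getD v.length 0], v.length + 1) Y).getD 0) = _
        rw [hi]
        rfl
      rw [hfp, hk] at hi hst
      apply hw
      refine ⟨fp Φ n σ Y (v ++ [k]) (v.length + 1), v.length + 1, v ++ [k],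
        hσ.trans ((List.prefix_append _ _).trans hst.1), fun Z hZ => ⟨?_, fun g hg hcg => ?_⟩⟩
      · rw [lpl_succ, hrun Z (pre_of_prefix hZ ((List.prefix_append _ _).trans hst.1)),
          lstep_some (j := i) (entry_of_prefix hZ hst.1) hu hi (by rw [← h5]; exact hZ), ← h5, hcF]
        rfl
      · have h6 := hcg.1 (2 * (fp Φ n σ Y (v ++ [k]) (v.length + 1)).length)
        have h7 : jn Y (fp Φ n σ Y (v ++ [k]) (v.length + 1)) =
            pre (join Y Z) (2 * (fp Φ n σ Y (v ++ [k]) (v.length + 1)).length) := by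
          conv_lhs => rw [hZ]
          rw [ResM.jn_pre]
        rw [h7, h6, hg] at hc
        exact hc rfl
    intro i hi
    rw [List.length_append, List.length_singleton] at hi
    rcases Nat.lt_succ_iff_lt_or_eq.1 hi with h | h
    · exact hok1 i h
    · subst h
      exact ⟨hsome, hT⟩

/-! ### The map -/

/-- `c` is the first answer -/
def IsF (Φ : ℕ → List ℕ → List ℕ) (x : ℕ × List ℕ × ℕ) (c : ℕ) (Y : ℕ → ℕ) : Prop :=
  tb Φ (x, c) Y = true ∧ ∀ i < c, tb Φ (x, i) Y = false

/-- `w` is the list of the codes of the strings of the play -/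
def Wit (Φ : ℕ → List ℕ → List ℕ) (n : ℕ) (σ u w : List ℕ) (Y : ℕ → ℕ) : Prop :=
  w.getD 0 0 = Encodable.encode σ ∧
    ∀ j < u.length, IsF Φ (n, ofN (w.getD j 0) ++ [u.getD j 0], j + 1) (w.getD (j + 1) 0) Y

theorem wit_unique {n : ℕ} {σ u w : List ℕ} {Y : ℕ → ℕ} (h : Wit Φ n σ u w Y) :
    ∀ j ≤ u.length, w.getD j 0 = Encodable.encode (fp Φ n σ Y u j) := by
  intro j
  induction j with
  | zero => exact fun _ => h.1
  | succ j ih =>
    intro hj
    have h1 := h.2 j (by omega)
    rw [ih (by omega), ofN_encode] at h1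
    have h2 : lookL Φ (n, fp Φ n σ Y u j ++ [u.getD j 0], j + 1) Y = some (w.getD (j + 1) 0) :=
      lookL_some.2 h1
    show _ = Encodable.encode (ofN ((lookL Φ (n, fp Φ n σ Y u j ++ [u.getD j 0], j + 1) Y).getD 0))
    rw [h2, Option.getD_some, encode_ofN]

theorem wit_exists {n : ℕ} {σ u : List ℕ} {Y : ℕ → ℕ} (h : Ok Φ bT n σ Y u u.length) :
    ∃ w, Wit Φ n σ u w Y := by
  have hget : ∀ j ≤ u.length, ((List.range (u.length + 1)).map
      (fun i => Encodable.encode (fp Φ n σ Y u i))).getD j 0 =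
      Encodable.encode (fp Φ n σ Y u j) := by
    intro j hj
    rw [List.getD_eq_getElem?_getD, List.getElem?_map, List.getElem?_range (by omega)]
    rfl
  refine ⟨(List.range (u.length + 1)).map (fun i => Encodable.encode (fp Φ n σ Y u i)), ?_, ?_⟩
  · exact hget 0 (Nat.zero_le _)
  · intro j hj
    rw [hget j hj.le, hget (j + 1) hj, ofN_encode]
    obtain ⟨i, hi⟩ := Option.isSome_iff_exists.1 (h j hj).1
    have h5 : fp Φ n σ Y u (j + 1) = ofN i := by
      show ofN ((lookL Φ (n, fp Φ n σ Y u j ++ [u.getD j 0], j + 1) Y).getD 0) = _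
      rw [hi]
      rfl
    rw [h5, encode_ofN]
    exact lookL_some.1 hi

theorem isF_cop (hΦ : Computable₂ Φ) :
    Cop (fun (p : (ℕ × List ℕ × ℕ) × ℕ) Y => IsF Φ p.1 p.2 Y) := by
  have h1 := recF_tb hΦ
  have ht : ComputablePred (fun b : Bool => b = true) :=
    (PrimrecRel.comp (Primrec.eq (α := Bool)) Primrec.id (Primrec.const true)).computablePred
  have hf : ComputablePred (fun b : Bool => b = false) :=
    (PrimrecRel.comp (Primrec.eq (α := Bool)) Primrec.id (Primrec.const false)).computablePred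
  have d1 : Cop (fun (p : (ℕ × List ℕ × ℕ) × ℕ) Y => tb Φ p Y = true) :=
    Cop.of_recF (p := fun b : Bool => b = true) h1 ht
  have d2 : Computable (fun p : ((ℕ × List ℕ × ℕ) × ℕ) × ℕ => (p.1.1, p.2)) :=
    (Computable.fst.comp Computable.fst).pair Computable.snd
  have d3 : RecF (fun (p : ((ℕ × List ℕ × ℕ) × ℕ) × ℕ) Y => tb Φ (p.1.1, p.2) Y) :=
    RecF.comp₁ (φ := tb Φ) h1 d2
  have d4 : Cop (fun (p : ((ℕ × List ℕ × ℕ) × ℕ) × ℕ) Y => tb Φ (p.1.1, p.2) Y = false) :=
    Cop.of_recF (p := fun b : Bool => b = false) d3 hf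
  have d5 : Cop (fun (p : (ℕ × List ℕ × ℕ) × ℕ) Y => ∀ i < p.2, tb Φ (p.1, i) Y = false) :=
    Cop.ball (P := fun (p : (ℕ × List ℕ × ℕ) × ℕ) i Y => tb Φ (p.1, i) Y = false) d4
      Computable.snd
  exact (Cop.and d1 d5).congr fun p Y => Iff.rfl

theorem wit_cop (hΦ : Computable₂ Φ) (n : ℕ) (σ : List ℕ) :
    Cop (fun (p : List ℕ × List ℕ) Y => Wit Φ n σ p.1 p.2 Y) := by
  have hgetD : Computable (fun x : List ℕ × ℕ => x.1.getD x.2 0) :=
    (Primrec.list_getD 0).to_comp
  have c1 : Cop (fun (p : List ℕ × List ℕ) (_ : ℕ → ℕ) => p.2.getD 0 0 = Encodable.encode σ) := by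
    refine Cop.of_computable ?_
    exact cp_comp eqPair (f := fun p : List ℕ × List ℕ => (p.2.getD 0 0, Encodable.encode σ))
      ((hgetD.comp (Computable.snd.pair (Computable.const 0))).pair (Computable.const _))
  have cj : Computable (fun p : (List ℕ × List ℕ) × ℕ => p.2) := Computable.snd
  have cu : Computable (fun p : (List ℕ × List ℕ) × ℕ => p.1.1) :=
    Computable.fst.comp Computable.fst
  have cw : Computable (fun p : (List ℕ × List ℕ) × ℕ => p.1.2) :=
    Computable.snd.comp Computable.fst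
  have b1 := hgetD.comp (cw.pair cj)
  have b2 := hgetD.comp (cu.pair cj)
  have b3 := comp_ofN.comp b1
  have b4 := (Computable.list_concat (α := ℕ)).comp b3 b2
  have c2 : Computable (fun p : (List ℕ × List ℕ) × ℕ =>
      ofN (p.1.2.getD p.2 0) ++ [p.1.1.getD p.2 0]) := b4
  have b5 := hgetD.comp (cw.pair (Computable.succ.comp cj))
  have c3 : Computable (fun p : (List ℕ × List ℕ) × ℕ => p.1.2.getD (p.2 + 1) 0) := b5
  have cs : Computable (fun p : (List ℕ × List ℕ) × ℕ => p.2 + 1) := Computable.succ.comp cj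
  have c4 : Computable (fun p : (List ℕ × List ℕ) × ℕ =>
      ((n, ofN (p.1.2.getD p.2 0) ++ [p.1.1.getD p.2 0], p.2 + 1), p.1.2.getD (p.2 + 1) 0)) :=
    ((Computable.const n).pair (c2.pair cs)).pair c3
  have c5 : Cop (fun (p : (List ℕ × List ℕ) × ℕ) Y =>
      IsF Φ (n, ofN (p.1.2.getD p.2 0) ++ [p.1.1.getD p.2 0], p.2 + 1)
        (p.1.2.getD (p.2 + 1) 0) Y) :=
    Cop.comp (P := fun (p : (ℕ × List ℕ × ℕ) × ℕ) Y => IsF Φ p.1 p.2 Y) (isF_cop hΦ) c4
  have cl : Computable (fun p : List ℕ × List ℕ => p.1.length) :=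
    Computable.list_length.comp Computable.fst
  have c6 : Cop (fun (p : List ℕ × List ℕ) Y => ∀ j < p.1.length,
      IsF Φ (n, ofN (p.2.getD j 0) ++ [p.1.getD j 0], j + 1) (p.2.getD (j + 1) 0) Y) :=
    Cop.ball (P := fun (p : List ℕ × List ℕ) j Y =>
      IsF Φ (n, ofN (p.2.getD j 0) ++ [p.1.getD j 0], j + 1) (p.2.getD (j + 1) 0) Y) c5 cl
  exact Cop.and c1 c6

/-- The coder wins, or there is a map. -/
theorem win_or_hom (hG : Game Φ bR bT) (n : ℕ) (σ : List ℕ) (Y : ℕ → ℕ) :
    Win Φ bR bT n σ Y ∨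
      Y ∈ Up (HomC (fun s => bR (n, s) = true) (fun s => bT (n, s) = true)) := by
  by_contra hcon
  push Not at hcon
  obtain ⟨hw, hY⟩ := hcon
  apply hY
  have hok := ok_of_not_win hG hw
  -- the witnesses
  have hP : Cop (fun (p : ℕ × ℕ) Y => bR (n, ofN p.1) = true → Wit Φ n σ (ofN p.1) (ofN p.2) Y) := by
    have g1 : Computable (fun p : ℕ × ℕ => (ofN p.1, ofN p.2)) :=
      (comp_ofN.comp Computable.fst).pair (comp_ofN.comp Computable.snd)
    have g2 : Cop (fun (p : ℕ × ℕ) Y => Wit Φ n σ (ofN p.1) (ofN p.2) Y) :=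
      Cop.comp (P := fun (p : List ℕ × List ℕ) Y => Wit Φ n σ p.1 p.2 Y)
        (wit_cop hG.comp n σ) g1
    have ht : ComputablePred (fun b : Bool => b = true) :=
      (PrimrecRel.comp (Primrec.eq (α := Bool)) Primrec.id (Primrec.const true)).computablePred
    have g3 : Computable (fun p : ℕ × ℕ => (n, ofN p.1)) :=
      (Computable.const n).pair (comp_ofN.comp Computable.fst)
    have g4 : Computable (fun p : ℕ × ℕ => bR (n, ofN p.1)) := hG.compR.comp g3
    have g5 : Cop (fun (p : ℕ × ℕ) (_ : ℕ → ℕ) => bR (n, ofN p.1) = true) :=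
      Cop.of_recF (p := fun b : Bool => b = true) (RecF.of_computable g4) ht
    exact Cop.imp g5 g2
  obtain ⟨f, hf, hout⟩ := red_mu_out
    (fun a m Y => bR (n, ofN a) = true → Wit Φ n σ (ofN a) (ofN m) Y) hP Y fun a => by
    by_cases ha : bR (n, ofN a) = true
    · obtain ⟨w, hw⟩ := wit_exists (hok (ofN a) ha)
      exact ⟨Encodable.encode w, fun _ => by rw [ofN_encode]; exact hw⟩
    · exact ⟨0, fun h => absurd h ha⟩
  let out : ℕ × ℕ → (ℕ → ℕ) → ℕ := fun p Y =>
    bif zB (ofN p.1).length then Encodable.encode ([] : List ℕ)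
    else Encodable.encode (Φ n (jn Y (ofN ((ofN p.2).getD (ofN p.1).length 0))))
  have ho : RecF out := by
    have hgetD : Computable (fun x : List ℕ × ℕ => x.1.getD x.2 0) :=
      (Primrec.list_getD 0).to_comp
    have cl : Computable (fun p : ℕ × ℕ => (ofN p.1).length) :=
      Computable.list_length.comp (comp_ofN.comp Computable.fst)
    have h1 : RecF (fun (p : ℕ × ℕ) Y =>
        Φ n (jn Y (ofN ((ofN p.2).getD (ofN p.1).length 0)))) :=
      (ResM.phi_recF hG.comp).comp₁ (f := fun p : ℕ × ℕ =>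
        (n, ofN ((ofN p.2).getD (ofN p.1).length 0)))
        ((Computable.const n).pair (comp_ofN.comp (hgetD.comp
          ((comp_ofN.comp Computable.snd).pair cl))))
    exact RecF.cond (RecF.of_computable (comp_zB.comp cl))
      (RecF.of_computable (Computable.const _)) (RecF.comp Computable.encode h1)
  have hval : ∀ s, bR (n, s) = true → hd (fun a => out (a, f a) Y) s =
      if s = [] then [] else Φ n (jn Y (fp Φ n σ Y s s.length)) := by
    intro s hs
    unfold hd
    have h1 := hf (Encodable.encode s)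
    rw [ofN_encode] at h1
    have h2 := wit_unique (h1 hs) s.length le_rfl
    have h3 : out (Encodable.encode s, f (Encodable.encode s)) Y =
        (bif zB s.length then Encodable.encode ([] : List ℕ)
          else Encodable.encode (Φ n (jn Y (ofN ((ofN (f (Encodable.encode s))).getD s.length 0)))))
        := by
      simp only [out]
      rw [ofN_encode]
    show (Encodable.decode (α := List ℕ)
      (out (Encodable.encode s, f (Encodable.encode s)) Y)).getD [] = _
    rw [h3]
    by_cases hs0 : s = []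
    · subst hs0
      have hz : zB ([] : List ℕ).length = true := zB_iff.2 rfl
      rw [hz, if_pos rfl, cond_true, Encodable.encodek]
      rfl
    · have hz : zB s.length = false := by
        by_contra hc
        exact hs0 (List.length_eq_zero_iff.1 (zB_iff.1 (by simpa using hc)))
      rw [hz, if_neg hs0, cond_false, h2, ofN_encode, Encodable.encodek]
      rfl
  have hlast : ∀ s, bR (n, s) = true → s ≠ [] →
      s.length ≤ (Φ n (jn Y (fp Φ n σ Y s s.length))).length ∧
        bT (n, Φ n (jn Y (fp Φ n σ Y s s.length))) = true := by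
    intro s hs hs0
    obtain ⟨l, hl⟩ : ∃ l, s.length = l + 1 :=
      ⟨s.length - 1, by have := List.length_pos_iff.2 hs0; omega⟩
    have h1 := hok s hs l (by omega)
    rw [hl]
    exact ⟨(ok_step h1.1).2, h1.2⟩
  refine ⟨fun a => out (a, f a) Y, fun s hs => ?_, hout out ho⟩
  rw [hval s hs]
  refine ⟨?_, ?_, fun k hk => ?_⟩
  · by_cases hs0 : s = []
    · rw [if_pos hs0]
      exact hG.rootT n
    · rw [if_neg hs0]
      exact (hlast s hs hs0).2
  · by_cases hs0 : s = []
    · rw [if_pos hs0, hs0]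
    · rw [if_neg hs0]
      exact (hlast s hs hs0).1
  · rw [hval _ (hG.treeR n _ _ (List.take_prefix _ _) hs)]
    by_cases hk0 : s.take k = []
    · rw [if_pos hk0]
      exact List.nil_prefix
    · have hs0 : s ≠ [] := fun h => hk0 (by rw [h, List.take_nil])
      rw [if_neg hk0, if_neg hs0]
      have hlk : (s.take k).length = k := by
        rw [List.length_take]
        omega
      have hfp : fp Φ n σ Y (s.take k) (s.take k).length = fp Φ n σ Y s k := by
        rw [hlk]
        refine fp_congr fun i hi => ?_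
        rw [List.getD_eq_getElem?_getD, List.getD_eq_getElem?_getD, List.getElem?_take, if_pos hi]
      rw [hfp]
      refine hG.mono n _ _ ?_
      have h1 := fp_mono (hok s hs) (show k ≤ s.length by omega)
      exact ResM.jn_mono Y h1

end Pool.Agent.Lib.MP_d48993_lc.H30
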