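import Pool.Agent.Lib.MP_d48993_lc.H30.HideA
import Pool.Agent.Lib.MP_d48993_lc.Enum
import Pool.Agent.Lib.MP_d48993_lc.Pi2
import Pool.Agent.Lib.MP_d48993_lc.H84.Seq

/-!
# Hiding with payments, for families of classes, and the class that it gives (helper30)
-/

set_option autoImplicit false

namespace Pool.Agent.Lib.MP_d48993_lc.H30

open MP_8c048d_lc (pre join RecF Sig Pih Del Clo Cop join_even join_odd join_eta pre_succ
  length_pre pre_congr pre_getElem? pre_take)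
open Hide (ev od)
open ResM (jn firstB cp_comp prefPair lePair eqPair)
open H84 (KK KK_clo KK_rec up_del up_trans up_self P2 tl2 cons2)

/-- the tree number `i` of a family -/
def tr (b : ℕ × List ℕ → Bool) (i : ℕ) : List ℕ → Prop := fun s => b (i, s) = true

/-- uniformly computable trees -/
structure Fam (b : ℕ × List ℕ → Bool) : Prop where
  comp : Computable b
  tree : ∀ n σ τ, σ <+: τ → b (n, τ) = true → b (n, σ) = true

/-- The hiding lemma with payments. -/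
theorem hide_pay {bR bT : ℕ × List ℕ → Bool} (hR : Fam bR) (hT : Fam bT)
    (hT0 : ∀ i, bT (i, []) = true) (Θ : (ℕ → ℕ) → Prop) (hΘ : Sig (fun (_ : Unit) Y => Θ Y)) :
    ∃ D : ℕ × ℕ → (ℕ → ℕ) → Bool, RecF D ∧
      (∀ Y, Θ Y → (∀ i, Y ∉ Up (HomC (tr bR i) (tr bT i))) →
        ∃ Z, (∀ n, ∃ m, D (n, m) (join Y Z) = true) ∧ ∀ i, join Y Z ∉ Up (paths (tr bT i))) ∧
      ∀ F, (∀ n, ∃ m, D (n, m) F = true) →
        (∃ i, F ∈ Up (paths (tr bR i)) ∧ F ∈ Up (paths (tr bT i))) ∨ Θ (ev F) := by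
  obtain ⟨Φ, hΦ⟩ := enum
  have cu1 : Computable (fun m : ℕ => m.unpair.1) := (Primrec.fst.comp Primrec.unpair).to_comp
  have cu2 : Computable (fun m : ℕ => m.unpair.2) := (Primrec.snd.comp Primrec.unpair).to_comp
  have hG : Game (fun m => Φ m.unpair.1) (fun x => bR (x.1.unpair.2, x.2))
      (fun x => bT (x.1.unpair.2, x.2)) :=
    { comp := hΦ.comp.comp (cu1.comp Computable.fst) Computable.snd
      mono := fun n σ τ h => hΦ.mono _ σ τ h
      compR := hR.comp.comp ((cu2.comp Computable.fst).pair Computable.snd)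
      compT := hT.comp.comp ((cu2.comp Computable.fst).pair Computable.snd)
      treeR := fun n σ τ h => hR.tree _ σ τ h
      treeT := fun n σ τ h => hT.tree _ σ τ h
      rootT := fun n => hT0 _ }
  obtain ⟨D, hD, h1, h2⟩ := hideA hG Θ hΘ
  refine ⟨D, hD, fun Y hY hYU => ?_, fun F hF => ?_⟩
  · obtain ⟨Z, hZ1, hZ2⟩ := h1 Y hY fun n => hYU n.unpair.2
    refine ⟨Z, hZ1, fun i => ?_⟩
    rintro ⟨g, hg, hgF⟩
    obtain ⟨n, hn⟩ := (hΦ.spec g (join Y Z)).1 hgF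
    have h3 := hZ2 (Nat.pair n i) g
    simp only [Nat.unpair_pair] at h3
    exact h3 hg hn
  · rcases h2 F hF with ⟨n, ⟨f, hf1, hf2⟩, g, hg1, hg2⟩ | h
    · left
      exact ⟨n.unpair.2, ⟨f, hf1, hf2⟩, g, hg1, (hΦ.spec g F).2 ⟨_, hg2⟩⟩
    · exact Or.inr h

/-- The real `O` pays. -/
def Pays (bR bT : ℕ × List ℕ → Bool) (O : ℕ → ℕ) : Prop :=
  ∃ i, O ∈ Up (paths (tr bR i)) ∧ O ∈ Up (paths (tr bT i))

/-- The main lemma: from payments and a `Σ¹₁` set `𝒪` of reals, some of them not able to pay, a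
class over `M` that is computed by no path of the `T i`, and not by all reals of `𝒪`. -/
theorem exists_class {bR bT : ℕ × List ℕ → Bool} (hR : Fam bR) (hT : Fam bT)
    (hT0 : ∀ i, bT (i, []) = true) {M : Set (ℕ → ℕ)} (hM : ClosedC M)
    {𝒪 : (ℕ → ℕ) → Prop} (h𝒪 : Sig (fun (_ : Unit) W => 𝒪 W)) {X : ℕ → ℕ} (hXM : X ∈ M)
    (hX : ∀ i, X ∉ Up (HomC (tr bR i) (tr bT i))) {O : ℕ → ℕ} (hO : 𝒪 O)
    (hOp : ¬ Pays bR bT O) :
    ∃ S, ClosedC S ∧ (∀ F ∈ Up S, Pays bR bT F ∨ F ∈ Up M) ∧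
      (∃ F ∈ Up S, Red X F ∧ ∀ i, F ∉ Up (paths (tr bT i))) ∧ ∃ W, 𝒪 W ∧ W ∉ Up S := by
  classical
  have henum := enum
  have hjoin := joinS
  have hred := red1
  have hpi2 : Pi2Statement := pi2 redMu joinS
  -- the relation that is hidden
  let Θ : (ℕ → ℕ) → Prop := fun Y => tl2 Y ∈ M ∧ ∃ F, F ∈ KK (Y 0) (Y 1)
  have hΘ : Sig (fun (_ : Unit) Y => Θ Y) := by
    have e1 : Sig (fun (_ : Unit) Y => tl2 Y ∈ M) :=
      (Clo.del hM).1.subst (P := fun (_ : Unit) F => F ∈ M) (ψ := fun (a : Unit) _ => a)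
        (RecF.of_computable Computable.id) (Ψ := fun (_ : Unit) F => tl2 F) H84.tl2_recF
    have e2 : Sig (fun (_ : Unit) E => od E ∈ KK (ev E 0) (ev E 1)) := by
      refine (Clo.del KK_clo).1.subst (P := fun (p : ℕ × ℕ) F => F ∈ KK p.1 p.2)
        (ψ := fun (_ : Unit) E => (ev E 0, ev E 1)) ?_ (Ψ := fun (_ : Unit) E => od E)
        Hide.recF_od
      exact (RecF.at (f := fun _ : Unit => 0) (Computable.const 0)).pair
        (RecF.at (f := fun _ : Unit => 2) (Computable.const 2))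
    have e3 := Sig.exF (P := fun (_ : Unit) E => od E ∈ KK (ev E 0) (ev E 1)) e2
    refine (e1.and (e3.congr fun a F => ?_))
    simp only [Hide.od_join, Hide.ev_join]
  obtain ⟨D, hD, hD1, hD2⟩ := hide_pay hR hT hT0 Θ hΘ
  -- the slices
  let dd : (ℕ × ℕ) × (ℕ × ℕ) → (ℕ → ℕ) → Bool := fun x F =>
    D x.2 F && (decide (F 0 = x.1.1) && decide (F 2 = x.1.2))
  have hand : Computable (fun x : Bool × Bool => x.1 && x.2) :=
    (Primrec.and.to_comp).comp Computable.fst Computable.snd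
  have heq : Computable (fun x : ℕ × ℕ => decide (x.1 = x.2)) :=
    (Primrec.eq (α := ℕ)).decide.to_comp
  have hdd : RecF dd := by
    have e1 : RecF (fun (x : (ℕ × ℕ) × (ℕ × ℕ)) F => D x.2 F) := hD.comp₁ Computable.snd
    have e2 : RecF (fun (x : (ℕ × ℕ) × (ℕ × ℕ)) F => decide (F 0 = x.1.1)) :=
      RecF.comp (g := fun x : ℕ × ℕ => decide (x.1 = x.2)) heq
        ((RecF.at (f := fun _ : (ℕ × ℕ) × (ℕ × ℕ) => 0) (Computable.const 0)).pair
          (RecF.of_computable (Computable.fst.comp Computable.fst)))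
    have e3 : RecF (fun (x : (ℕ × ℕ) × (ℕ × ℕ)) F => decide (F 2 = x.1.2)) :=
      RecF.comp (g := fun x : ℕ × ℕ => decide (x.1 = x.2)) heq
        ((RecF.at (f := fun _ : (ℕ × ℕ) × (ℕ × ℕ) => 2) (Computable.const 2)).pair
          (RecF.of_computable (Computable.snd.comp Computable.fst)))
    exact RecF.comp (g := fun x : Bool × Bool => x.1 && x.2) hand
      (e1.pair (RecF.comp (g := fun x : Bool × Bool => x.1 && x.2) hand (e2.pair e3)))
  have hmem : ∀ (p : ℕ × ℕ) (F : ℕ → ℕ), F ∈ P2 dd p ↔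
      (∀ n, ∃ m, D (n, m) F = true) ∧ F 0 = p.1 ∧ F 2 = p.2 := by
    intro p F
    constructor
    · intro h
      have h' : ∀ n, ∃ m, D (n, m) F = true ∧ F 0 = p.1 ∧ F 2 = p.2 := by
        intro n
        obtain ⟨m, hm⟩ := h n
        have hm' : (D (n, m) F && (decide (F 0 = p.1) && decide (F 2 = p.2))) = true := hm
        simp only [Bool.and_eq_true, decide_eq_true_eq] at hm'
        exact ⟨m, hm'⟩
      refine ⟨fun n => ?_, ?_⟩
      · obtain ⟨m, hm, -⟩ := h' n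
        exact ⟨m, hm⟩
      · obtain ⟨m, -, hm⟩ := h' 0
        exact hm
    · rintro ⟨h, h0, h2⟩ n
      obtain ⟨m, hm⟩ := h n
      refine ⟨m, ?_⟩
      show (D (n, m) F && (decide (F 0 = p.1) && decide (F 2 = p.2))) = true
      simp [hm, h0, h2]
  have hsl : ∀ (p : ℕ × ℕ) (F : ℕ → ℕ), F ∈ P2 dd p → Pays bR bT F ∨
      (tl2 (ev F) ∈ M ∧ ∃ G, G ∈ KK p.1 p.2) := by
    intro p F hF
    obtain ⟨h1, h2, h3⟩ := (hmem p F).1 hF
    rcases hD2 F h1 with h | ⟨h4, G, h5⟩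
    · exact Or.inl h
    · have e0 : ev F 0 = F 0 := rfl
      have e1 : ev F 1 = F 2 := rfl
      rw [e0, e1, h2, h3] at h5
      exact Or.inr ⟨h4, G, h5⟩
  have hpt : ∀ F G : ℕ → ℕ, Pays bR bT F → Red F G → Pays bR bT G := by
    rintro F G ⟨i, h1, h2⟩ hr
    exact ⟨i, up_trans h1 hr, up_trans h2 hr⟩
  -- the relation `R`
  have hVdel : Del (fun (p : ℕ × ℕ) W => W ∈ Up (P2 dd p)) := up_del henum hdd
  have hRel : Sig (fun (p : ℕ × ℕ) (_ : ℕ → ℕ) => ∃ W, 𝒪 W ∧ W ∉ Up (P2 dd p)) := by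
    have e0 : Sig (fun (p : ℕ × ℕ) W => 𝒪 W ∧ W ∉ Up (P2 dd p)) :=
      (h𝒪.comp (f := fun _ : ℕ × ℕ => ()) (Computable.const ())).and hVdel.not.1
    have e1 : Sig (fun (p : ℕ × ℕ) E => 𝒪 (od E) ∧ od E ∉ Up (P2 dd p)) :=
      e0.subst (ψ := fun (a : ℕ × ℕ) _ => a) (RecF.of_computable Computable.id)
        (Ψ := fun (_ : ℕ × ℕ) E => od E) Hide.recF_od
    refine (Sig.exF e1).congr fun p F => ?_
    simp only [Hide.od_join]
  obtain ⟨T, hTc, hT1, hT2, hT3⟩ := H84.sig_tree (R := fun p => ∃ W, 𝒪 W ∧ W ∉ Up (P2 dd p)) hRel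
  have hTclo : Clo (fun (p : ℕ × ℕ) F => ∀ k, T p (pre F k)) := by
    refine Clo.allN (P := fun (p : ℕ × ℕ) k F => T p (pre F k)) (Clo.of_cop ?_)
    refine Cop.of_recF (φ := fun (x : (ℕ × ℕ) × ℕ) F => (x.1, pre F x.2))
      (p := fun x : (ℕ × ℕ) × List ℕ => T x.1 x.2) ?_ hTc
    exact (RecF.of_computable Computable.fst).pair (RecF.pre.comp₁ Computable.snd)
  obtain ⟨e, he⟩ := KK_rec hTclo
  have hiff : (∃ G, G ∈ KK e 0) ↔ ∃ W, 𝒪 W ∧ W ∉ Up (P2 dd (e, 0)) := by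
    rw [← hT3 (e, 0)]
    constructor
    · rintro ⟨G, hG⟩
      exact ⟨G, (he 0 G).1 hG⟩
    · rintro ⟨G, hG⟩
      exact ⟨G, (he 0 G).2 hG⟩
  -- the class is not empty
  have hne : ∃ G, G ∈ KK e 0 := by
    by_contra hc
    apply hc
    rw [hiff]
    refine ⟨O, hO, ?_⟩
    rintro ⟨F, hF, hr⟩
    rcases hsl _ F hF with h | ⟨-, h⟩
    · exact hOp (hpt F O h hr)
    · exact hc h
  obtain ⟨G, hG⟩ := hne
  have hYΘ : Θ (cons2 e 0 X) := by
    refine ⟨by rw [H84.tl2_cons2]; exact hXM, G, ?_⟩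
    rw [H84.cons2_zero, H84.cons2_one]
    exact hG
  have hrc : Red (cons2 e 0 X) X := by
    refine hred (fun n F => cons2 e 0 F n) ?_ X
    have c0 : Computable (fun n : ℕ => decide (n = 0)) :=
      (PrimrecRel.comp (Primrec.eq (α := ℕ)) Primrec.id (Primrec.const 0)).decide.to_comp
    have c1 : Computable (fun n : ℕ => decide (n = 1)) :=
      (PrimrecRel.comp (Primrec.eq (α := ℕ)) Primrec.id (Primrec.const 1)).decide.to_comp
    have r := RecF.cond (c := fun (n : ℕ) (_ : ℕ → ℕ) => decide (n = 0))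
      (RecF.of_computable c0)
      (φ := fun (_ : ℕ) (_ : ℕ → ℕ) => e) (RecF.of_computable (Computable.const e))
      (RecF.cond (c := fun (n : ℕ) (_ : ℕ → ℕ) => decide (n = 1)) (RecF.of_computable c1)
        (φ := fun (_ : ℕ) (_ : ℕ → ℕ) => 0) (RecF.of_computable (Computable.const 0))
        (ψ := fun (n : ℕ) (F : ℕ → ℕ) => F (n - 2))
        (RecF.at (Primrec.nat_sub.comp Primrec.id (Primrec.const 2)).to_comp))
    refine r.congr fun n F => ?_
    unfold cons2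
    by_cases h0 : n = 0
    · simp [h0]
    · by_cases h1 : n = 1
      · simp [h1]
      · simp [h0, h1]
  obtain ⟨Z, hZ1, hZ2⟩ := hD1 _ hYΘ fun i h => hX i (up_trans h hrc)
  obtain ⟨S, hS, hSU⟩ := hpi2 (fun x F => dd ((e, 0), x) F)
    (hdd.comp₁ (f := fun x : ℕ × ℕ => ((e, 0), x)) ((Computable.const (e, 0)).pair Computable.id))
  have hSU' : Up S = Up (P2 dd (e, 0)) := hSU
  have hev : ∀ F : ℕ → ℕ, Red (ev F) F := by
    intro F
    have h2 := hjoin.1 (ev F) (od F)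
    rwa [Hide.join_ev_od] at h2
  refine ⟨S, hS, ?_, ?_, ?_⟩
  · intro F hF
    rw [hSU'] at hF
    obtain ⟨F', hF', hr⟩ := hF
    rcases hsl _ F' hF' with h | ⟨h, -⟩
    · exact Or.inl (hpt _ _ h hr)
    · exact Or.inr ⟨_, h, ((H84.red_tl2 hred _).trans (hev _)).trans hr⟩
  · refine ⟨join (cons2 e 0 X) Z, ?_, ?_, hZ2⟩
    · rw [hSU']
      refine up_self ((hmem (e, 0) _).2 ⟨hZ1, ?_, ?_⟩)
      · show join (cons2 e 0 X) Z (2 * 0) = e
        rw [MP_8c048d_lc.join_even]; rfl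
      · show join (cons2 e 0 X) Z (2 * 1) = 0
        rw [MP_8c048d_lc.join_even]; rfl
    · have h1 := hev (join (cons2 e 0 X) Z)
      rw [Hide.ev_join] at h1
      have h2 := H84.red_tl2 hred (cons2 e 0 X)
      rw [H84.tl2_cons2] at h2
      exact h2.trans h1
  · rw [hSU']
    exact hiff.1 ⟨G, hG⟩

end Pool.Agent.Lib.MP_d48993_lc.H30
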