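import Pool.Agent.Lib.MP_d48993_lc.Hide
import Pool.Agent.Lib.MP_d48993_lc.Res
import Pool.Agent.Lib.MP_d48993_lc.H84.RecFam

/-!
# Hiding with payments: the game at one level (helper30)

A level of the code is a play of a game.  The coder chooses, one by one, the entries
`k_0, k_1, ..` of a sequence with all its initial segments in the tree `R n`; after each of them
the machine answers with the first string (above what has been written so far) for which the
functional `Φ n` has given one more value.  The play ends when there is no answer, or when the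
values are no longer in the tree `T n`.
-/

set_option autoImplicit false

namespace Pool.Agent.Lib.MP_d48993_lc.H30

open MP_8c048d_lc (pre join RecF Sig Clo Cop join_even join_odd join_eta pre_succ length_pre
  pre_congr pre_getElem? pre_take)
open Hide (ev od)
open ResM (jn firstB cp_comp prefPair lePair eqPair)

/-- the state of a play: the string, the choices, and the status (`0`: running; `1`: over;
`2`: the code is not correct) -/
abbrev St : Type := List ℕ × List ℕ × ℕ

/-- initial segment, as a function to `Bool` -/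
def prefB (x : List ℕ × List ℕ) : Bool := decide (x.1 <+: x.2)

/-- equality of sequences -/
def eqB (x : List ℕ × List ℕ) : Bool := decide (x.1 = x.2)

/-- the order of numbers -/
def leB (x : ℕ × ℕ) : Bool := decide (x.1 ≤ x.2)

/-- is zero -/
def zB (x : ℕ) : Bool := decide (x = 0)

theorem prefB_iff {s t : List ℕ} : prefB (s, t) = true ↔ s <+: t := by simp [prefB]

theorem eqB_iff {s t : List ℕ} : eqB (s, t) = true ↔ s = t := by simp [eqB]

theorem leB_iff {s t : ℕ} : leB (s, t) = true ↔ s ≤ t := by simp [leB]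

theorem zB_iff {s : ℕ} : zB s = true ↔ s = 0 := by simp [zB]

theorem comp_and : Computable (fun x : Bool × Bool => x.1 && x.2) :=
  (Primrec.and.to_comp).comp Computable.fst Computable.snd

theorem comp_zB : Computable zB :=
  ((PrimrecRel.comp (Primrec.eq (α := ℕ)) Primrec.id (Primrec.const 0)).decide.to_comp :)

theorem comp_leB : Computable leB := (Primrec.nat_le.decide.to_comp :)

theorem comp_eqB : Computable eqB := ((Primrec.eq (α := List ℕ)).decide.to_comp :)

theorem comp_prefB : Computable prefB := by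
  have h : PrimrecPred (fun p : List ℕ × List ℕ => p.1 = p.2.take p.1.length) :=
    PrimrecRel.comp (R := fun a b : List ℕ => a = b) Primrec.eq Primrec.fst
      ((Primrec.list_take (α := ℕ)).comp (Primrec.list_length.comp Primrec.fst) Primrec.snd)
  refine (h.decide.to_comp).of_eq fun p => ?_
  exact decide_eq_decide.2 List.prefix_iff_eq_take.symm

attribute [irreducible] prefB eqB leB zB

/-- the string with the code `j` -/
def ofN (j : ℕ) : List ℕ := Denumerable.ofNat (List ℕ) j

theorem ofN_encode (s : List ℕ) : ofN (Encodable.encode s) = s := Denumerable.ofNat_encode s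

theorem encode_ofN (j : ℕ) : Encodable.encode (ofN j) = j := Denumerable.encode_ofNat j

theorem comp_ofN : Computable ofN := (Primrec.ofNat (List ℕ)).to_comp

attribute [irreducible] ofN

/-- the test of the machine: `j` is an answer, at `((n, s), L)` -/
def tb (Φ : ℕ → List ℕ → List ℕ) (p : (ℕ × List ℕ × ℕ) × ℕ) (Y : ℕ → ℕ) : Bool :=
  prefB (p.1.2.1, ofN p.2) && leB (p.1.2.2, (Φ p.1.1 (jn Y (ofN p.2))).length)

/-- one more value of the code -/
def nx (F : ℕ → ℕ) (s : List ℕ) : ℕ := F (2 * s.length + 1)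

/-- the answer of stage `a.1` -/
def look (Φ : ℕ → List ℕ → List ℕ) (a : ℕ × ℕ × St) (F : ℕ → ℕ) : Option ℕ :=
  firstB (fun j => tb Φ ((a.2.1, a.2.2.1 ++ [nx F a.2.2.1], a.2.2.2.1.length + 1), j) (ev F)) a.1

/-- the state after the answer `τ` -/
def cont (Φ : ℕ → List ℕ → List ℕ) (bT : ℕ × List ℕ → Bool) (p : ℕ × List ℕ × List ℕ)
    (F : ℕ → ℕ) : St :=
  (p.2.1, p.2.2, bif eqB (p.2.1, pre (od F) p.2.1.length) then
    (bif bT (p.1, Φ p.1 (jn (ev F) p.2.1)) then 0 else 1) else 2)

/-- the new state, given the answer -/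
def nst (Φ : ℕ → List ℕ → List ℕ) (bR bT : ℕ × List ℕ → Bool) (a : (ℕ × St) × Option ℕ)
    (F : ℕ → ℕ) : St :=
  bif zB a.1.2.2.2 then
    (bif bR (a.1.1, a.1.2.2.1 ++ [nx F a.1.2.1]) then
      (bif a.2.isSome then
        cont Φ bT (a.1.1, ofN (a.2.getD 0), a.1.2.2.1 ++ [nx F a.1.2.1]) F
      else (a.1.2.1 ++ [nx F a.1.2.1], a.1.2.2.1 ++ [nx F a.1.2.1], 1))
    else (a.1.2.1 ++ [nx F a.1.2.1], a.1.2.2.1 ++ [nx F a.1.2.1], 2))
  else a.1.2

/-- one step of the play, at stage `a.1` -/
def pstep (Φ : ℕ → List ℕ → List ℕ) (bR bT : ℕ × List ℕ → Bool) (a : ℕ × ℕ × St)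
    (F : ℕ → ℕ) : St :=
  nst Φ bR bT ((a.2.1, a.2.2), look Φ a F) F

/-- the play from `σ` at level `n`, at stage `t`, after `j` steps; the argument is `((t, n, σ), j)` -/
def pl (Φ : ℕ → List ℕ → List ℕ) (bR bT : ℕ × List ℕ → Bool) (p : (ℕ × ℕ × List ℕ) × ℕ)
    (F : ℕ → ℕ) : St :=
  Nat.rec (motive := fun _ => St) (p.1.2.2, [], 0)
    (fun _ r => pstep Φ bR bT (p.1.1, p.1.2.1, r) F) p.2

/-! ### Computability -/

theorem recF_nx {α : Type} [Primcodable α] {f : α → (ℕ → ℕ) → List ℕ} (hf : RecF f) :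
    RecF (fun a F => nx F (f a F)) :=
  RecF.app (RecF.comp (g := fun l : List ℕ => 2 * l.length + 1)
    (Hide.c_dbl1 Computable.list_length) hf)

theorem recF_snoc {α : Type} [Primcodable α] {f : α → (ℕ → ℕ) → List ℕ}
    {g : α → (ℕ → ℕ) → ℕ} (hf : RecF f) (hg : RecF g) :
    RecF (fun a F => f a F ++ [g a F]) :=
  RecF.comp (g := fun x : List ℕ × ℕ => x.1 ++ [x.2])
    (Computable.list_concat.comp Computable.fst Computable.snd) (hf.pair hg)

variable {Φ : ℕ → List ℕ → List ℕ} {bR bT : ℕ × List ℕ → Bool}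

theorem recF_tb (hΦ : Computable₂ Φ) : RecF (tb Φ) := by
  have co : Computable (fun p : (ℕ × List ℕ × ℕ) × ℕ => ofN p.2) :=
    comp_ofN.comp Computable.snd
  have c1 : Computable (fun p : (ℕ × List ℕ × ℕ) × ℕ => p.1.1) :=
    Computable.fst.comp Computable.fst
  have c2 : Computable (fun p : (ℕ × List ℕ × ℕ) × ℕ => p.1.2.1) :=
    Computable.fst.comp (Computable.snd.comp Computable.fst)
  have c3 : Computable (fun p : (ℕ × List ℕ × ℕ) × ℕ => p.1.2.2) :=
    Computable.snd.comp (Computable.snd.comp Computable.fst)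
  have e1 : RecF (fun (p : (ℕ × List ℕ × ℕ) × ℕ) (_ : ℕ → ℕ) => prefB (p.1.2.1, ofN p.2)) :=
    RecF.of_computable (comp_prefB.comp (c2.pair co))
  have e2 : RecF (fun (p : (ℕ × List ℕ × ℕ) × ℕ) Y => Φ p.1.1 (jn Y (ofN p.2))) :=
    (ResM.phi_recF hΦ).comp₁ (f := fun p : (ℕ × List ℕ × ℕ) × ℕ => (p.1.1, ofN p.2)) (c1.pair co)
  have e3 : RecF (fun (p : (ℕ × List ℕ × ℕ) × ℕ) Y =>
      leB (p.1.2.2, (Φ p.1.1 (jn Y (ofN p.2))).length)) :=
    RecF.comp comp_leB ((RecF.of_computable c3).pair (RecF.comp Computable.list_length e2))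
  exact RecF.comp (g := fun x : Bool × Bool => x.1 && x.2) comp_and (e1.pair e3)

theorem recF_tbE (hΦ : Computable₂ Φ) :
    RecF (fun (p : (ℕ × List ℕ × ℕ) × ℕ) F => tb Φ p (ev F)) :=
  (recF_tb hΦ).subst (ψ := fun (p : (ℕ × List ℕ × ℕ) × ℕ) _ => p)
    (RecF.of_computable Computable.id) (Ψ := fun _ F => ev F) Hide.recF_ev

theorem recF_look (hΦ : Computable₂ Φ) : RecF (look Φ) := by
  have e1 := ResM.firstB_recF (recF_tbE hΦ)
  have a1 : RecF (fun (a : ℕ × ℕ × St) (_ : ℕ → ℕ) => a.2.2.1) :=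
    RecF.of_computable (Computable.fst.comp (Computable.snd.comp Computable.snd))
  have a2 : RecF (fun (a : ℕ × ℕ × St) (F : ℕ → ℕ) => a.2.2.1 ++ [nx F a.2.2.1]) :=
    recF_snoc a1 (recF_nx a1)
  have a3 : RecF (fun (a : ℕ × ℕ × St) (_ : ℕ → ℕ) => a.2.2.2.1.length + 1) :=
    RecF.of_computable (Computable.succ.comp (Computable.list_length.comp
      (Computable.fst.comp (Computable.snd.comp (Computable.snd.comp Computable.snd)))))
  exact RecF.bind e1 (f := fun (a : ℕ × ℕ × St) F =>
    ((a.2.1, a.2.2.1 ++ [nx F a.2.2.1], a.2.2.2.1.length + 1), a.1))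
    (((RecF.of_computable (Computable.fst.comp Computable.snd)).pair (a2.pair a3)).pair
      (RecF.of_computable Computable.fst))

theorem recF_cont (hΦ : Computable₂ Φ) (hT : Computable bT) : RecF (cont Φ bT) := by
  have cn : Computable (fun p : ℕ × List ℕ × List ℕ => p.1) := Computable.fst
  have ct : Computable (fun p : ℕ × List ℕ × List ℕ => p.2.1) :=
    Computable.fst.comp Computable.snd
  have cu : Computable (fun p : ℕ × List ℕ × List ℕ => p.2.2) :=
    Computable.snd.comp Computable.snd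
  have e3 : RecF (fun (p : ℕ × List ℕ × List ℕ) F => pre (od F) p.2.1.length) := by
    have h1 : RecF (fun (p : (ℕ × List ℕ × List ℕ) × ℕ) F => pre (od F) p.2) :=
      RecF.pre' (Ψ := fun _ F => od F) Hide.recF_od
    exact h1.comp₁ (f := fun p : ℕ × List ℕ × List ℕ => (p, p.2.1.length))
      (Computable.id.pair (Computable.list_length.comp ct))
  have e4 : RecF (fun (p : ℕ × List ℕ × List ℕ) F => eqB (p.2.1, pre (od F) p.2.1.length)) :=
    RecF.comp comp_eqB ((RecF.of_computable ct).pair e3)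
  have e5 : RecF (fun (p : ℕ × List ℕ × List ℕ) F => Φ p.1 (jn (ev F) p.2.1)) :=
    (ResM.phi_recF hΦ).subst (ψ := fun (p : ℕ × List ℕ × List ℕ) _ => (p.1, p.2.1))
      (RecF.of_computable (cn.pair ct)) (Ψ := fun _ F => ev F) Hide.recF_ev
  have e6 : RecF (fun (p : ℕ × List ℕ × List ℕ) F => bT (p.1, Φ p.1 (jn (ev F) p.2.1))) :=
    RecF.comp hT ((RecF.of_computable cn).pair e5)
  have e7 := RecF.cond e4 (RecF.cond e6
    (RecF.of_computable (Computable.const (0 : ℕ))) (RecF.of_computable (Computable.const (1 : ℕ))))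
    (RecF.of_computable (Computable.const (2 : ℕ)))
  exact (RecF.of_computable ct).pair ((RecF.of_computable cu).pair e7)

theorem recF_nst (hΦ : Computable₂ Φ) (hR : Computable bR) (hT : Computable bT) :
    RecF (nst Φ bR bT) := by
  have cn : Computable (fun a : (ℕ × St) × Option ℕ => a.1.1) :=
    Computable.fst.comp Computable.fst
  have cs : Computable (fun a : (ℕ × St) × Option ℕ => a.1.2.1) :=
    Computable.fst.comp (Computable.snd.comp Computable.fst)
  have cu : Computable (fun a : (ℕ × St) × Option ℕ => a.1.2.2.1) :=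
    Computable.fst.comp (Computable.snd.comp (Computable.snd.comp Computable.fst))
  have ce : Computable (fun a : (ℕ × St) × Option ℕ => a.1.2.2.2) :=
    Computable.snd.comp (Computable.snd.comp (Computable.snd.comp Computable.fst))
  have e1 : RecF (fun (a : (ℕ × St) × Option ℕ) F => nx F a.1.2.1) :=
    recF_nx (f := fun (a : (ℕ × St) × Option ℕ) _ => a.1.2.1) (RecF.of_computable cs)
  have es : RecF (fun (a : (ℕ × St) × Option ℕ) F => a.1.2.1 ++ [nx F a.1.2.1]) :=
    recF_snoc (f := fun (a : (ℕ × St) × Option ℕ) _ => a.1.2.1) (RecF.of_computable cs) e1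
  have eu : RecF (fun (a : (ℕ × St) × Option ℕ) F => a.1.2.2.1 ++ [nx F a.1.2.1]) :=
    recF_snoc (f := fun (a : (ℕ × St) × Option ℕ) _ => a.1.2.2.1) (RecF.of_computable cu) e1
  have ec : RecF (fun (a : (ℕ × St) × Option ℕ) F =>
      cont Φ bT (a.1.1, ofN (a.2.getD 0), a.1.2.2.1 ++ [nx F a.1.2.1]) F) := by
    refine RecF.bind (recF_cont hΦ hT) (f := fun (a : (ℕ × St) × Option ℕ) F =>
      (a.1.1, ofN (a.2.getD 0), a.1.2.2.1 ++ [nx F a.1.2.1])) ?_
    refine (RecF.of_computable cn).pair (RecF.pair (RecF.of_computable ?_) eu)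
    exact comp_ofN.comp (Computable.option_getD Computable.snd (Computable.const 0))
  have ei : RecF (fun (a : (ℕ × St) × Option ℕ) (_ : ℕ → ℕ) => a.2.isSome) :=
    RecF.of_computable ((Primrec.option_isSome.to_comp).comp Computable.snd)
  have er : RecF (fun (a : (ℕ × St) × Option ℕ) F => bR (a.1.1, a.1.2.2.1 ++ [nx F a.1.2.1])) :=
    RecF.comp hR ((RecF.of_computable cn).pair eu)
  have e0 : RecF (fun (a : (ℕ × St) × Option ℕ) (_ : ℕ → ℕ) => zB a.1.2.2.2) :=
    RecF.of_computable (comp_zB.comp ce)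
  have k1 := RecF.cond ei ec (es.pair (eu.pair (RecF.of_computable (Computable.const 1))))
  have k2 := RecF.cond er k1 (es.pair (eu.pair (RecF.of_computable (Computable.const 2))))
  exact RecF.cond e0 k2 (RecF.of_computable (Computable.snd.comp Computable.fst))

theorem recF_pstep (hΦ : Computable₂ Φ) (hR : Computable bR) (hT : Computable bT) :
    RecF (pstep Φ bR bT) :=
  RecF.bind (recF_nst hΦ hR hT) (f := fun (a : ℕ × ℕ × St) F => ((a.2.1, a.2.2), look Φ a F))
    ((RecF.of_computable Computable.snd).pair (recF_look hΦ))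

theorem recF_pl (hΦ : Computable₂ Φ) (hR : Computable bR) (hT : Computable bT) :
    RecF (pl Φ bR bT) := by
  have e1 : RecF (fun (p : ℕ × ℕ × List ℕ) (_ : ℕ → ℕ) => ((p.2.2, [], 0) : St)) :=
    RecF.of_computable ((Computable.snd.comp Computable.snd).pair (Computable.const _))
  have e2 : RecF (fun (x : (ℕ × ℕ × List ℕ) × ℕ × St) F =>
      pstep Φ bR bT (x.1.1, x.1.2.1, x.2.2) F) :=
    (recF_pstep hΦ hR hT).comp₁ (f := fun x : (ℕ × ℕ × List ℕ) × ℕ × St =>
      (x.1.1, x.1.2.1, x.2.2)) ((Computable.fst.comp Computable.fst).pair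
        ((Computable.fst.comp (Computable.snd.comp Computable.fst)).pair
          (Computable.snd.comp Computable.snd)))
  exact RecF.natRec e1 e2

/-! ### The limit -/

open Classical in
/-- the final answer -/
noncomputable def lookL (Φ : ℕ → List ℕ → List ℕ) (c : ℕ × List ℕ × ℕ) (Y : ℕ → ℕ) : Option ℕ :=
  if h : ∃ j, tb Φ (c, j) Y = true then some (Nat.find h) else none

theorem firstB_eq {b : ℕ → Bool} {t j : ℕ} (h : firstB b t = some j) :
    b j = true ∧ ∀ i < j, b i = false := by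
  classical
  have hj := ResM.firstB_sound h
  refine ⟨hj, fun i hi => ?_⟩
  by_contra hcon
  have hex : ∃ i, b i = true := ⟨j, hj⟩
  have h1 := Nat.find_spec hex
  have h2 : ∀ i < Nat.find hex, b i = false := fun i hi => by
    have := Nat.find_min hex hi
    simpa using this
  rcases lt_or_ge (Nat.find hex) t with hlt | hge
  · rw [ResM.firstB_some hlt h1 h2] at h
    have h3 : Nat.find hex = j := by simpa using h
    rw [← h3] at hi
    exact hcon (h2 i hi)
  · rw [ResM.firstB_none (fun i hi => h2 i (by omega))] at h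
    exact absurd h (by simp)

theorem lookL_some {c : ℕ × List ℕ × ℕ} {Y : ℕ → ℕ} {j : ℕ} :
    lookL Φ c Y = some j ↔ tb Φ (c, j) Y = true ∧ ∀ i < j, tb Φ (c, i) Y = false := by
  classical
  unfold lookL
  constructor
  · intro h
    split_ifs at h with hex
    have h3 : Nat.find hex = j := by simpa using h
    subst h3
    exact ⟨Nat.find_spec hex, fun i hi => by simpa using Nat.find_min hex hi⟩
  · rintro ⟨h1, h2⟩
    have hex : ∃ j, tb Φ (c, j) Y = true := ⟨j, h1⟩
    rw [dif_pos hex]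
    congr 1
    refine (Nat.find_eq_iff hex).2 ⟨h1, fun i hi => ?_⟩
    rw [h2 i hi]
    decide

theorem lookL_none {c : ℕ × List ℕ × ℕ} {Y : ℕ → ℕ} :
    lookL Φ c Y = none ↔ ∀ j, tb Φ (c, j) Y = false := by
  classical
  unfold lookL
  constructor
  · intro h j
    split_ifs at h with hex
    by_contra hj
    exact hex ⟨j, by simpa using hj⟩
  · intro h
    rw [dif_neg]
    rintro ⟨j, hj⟩
    rw [h j] at hj
    exact absurd hj (by decide)

theorem look_lim (c : ℕ × List ℕ × ℕ) (Y : ℕ → ℕ) :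
    ∃ t₀, ∀ t ≥ t₀, firstB (fun j => tb Φ (c, j) Y) t = lookL Φ c Y := by
  cases h : lookL Φ c Y with
  | none =>
    exact ⟨0, fun t _ => ResM.firstB_none fun j _ => lookL_none.1 h j⟩
  | some j =>
    obtain ⟨h1, h2⟩ := lookL_some.1 h
    exact ⟨j + 1, fun t ht => ResM.firstB_some (by omega) h1 h2⟩

theorem look_sound {c : ℕ × List ℕ × ℕ} {Y : ℕ → ℕ} {t : ℕ}
    (h : (firstB (fun j => tb Φ (c, j) Y) t).isSome = true) :
    firstB (fun j => tb Φ (c, j) Y) t = lookL Φ c Y := by
  obtain ⟨j, hj⟩ := Option.isSome_iff_exists.1 h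
  rw [hj]
  exact (lookL_some.2 (firstB_eq hj)).symm

/-- the context of the search -/
def cx (F : ℕ → ℕ) (n : ℕ) (st : St) : ℕ × List ℕ × ℕ :=
  (n, st.1 ++ [nx F st.1], st.2.1.length + 1)

/-- one step of the play, in the limit -/
noncomputable def lstep (Φ : ℕ → List ℕ → List ℕ) (bR bT : ℕ × List ℕ → Bool) (n : ℕ) (st : St)
    (F : ℕ → ℕ) : St :=
  nst Φ bR bT ((n, st), lookL Φ (cx F n st) (ev F)) F

/-- the play in the limit -/
noncomputable def lpl (Φ : ℕ → List ℕ → List ℕ) (bR bT : ℕ × List ℕ → Bool) (n : ℕ) (σ : List ℕ)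
    (F : ℕ → ℕ) (j : ℕ) : St :=
  Nat.rec (motive := fun _ => St) (σ, [], 0) (fun _ r => lstep Φ bR bT n r F) j

theorem lpl_succ (n : ℕ) (σ : List ℕ) (F : ℕ → ℕ) (j : ℕ) :
    lpl Φ bR bT n σ F (j + 1) = lstep Φ bR bT n (lpl Φ bR bT n σ F j) F := rfl

theorem pl_succ (t n : ℕ) (σ : List ℕ) (F : ℕ → ℕ) (j : ℕ) :
    pl Φ bR bT ((t, n, σ), j + 1) F = pstep Φ bR bT (t, n, pl Φ bR bT ((t, n, σ), j) F) F := rfl

theorem nst_ne {n : ℕ} {st : St} {o : Option ℕ} {F : ℕ → ℕ} (h : st.2.2 ≠ 0) :
    nst Φ bR bT ((n, st), o) F = st := by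
  have h1 : zB st.2.2 = false := by
    by_contra hc
    exact h (zB_iff.1 (by simpa using hc))
  unfold nst
  simp only
  rw [h1]
  rfl

theorem pstep_lim (n : ℕ) (st : St) (F : ℕ → ℕ) :
    ∃ t₀, ∀ t ≥ t₀, pstep Φ bR bT (t, n, st) F = lstep Φ bR bT n st F := by
  obtain ⟨t₀, h⟩ := look_lim (Φ := Φ) (cx F n st) (ev F)
  refine ⟨t₀, fun t ht => ?_⟩
  unfold pstep lstep
  have h1 : look Φ (t, n, st) F = lookL Φ (cx F n st) (ev F) := h t ht
  rw [h1]

theorem pl_lim (n : ℕ) (σ : List ℕ) (F : ℕ → ℕ) (j : ℕ) :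
    ∃ t₀, ∀ t ≥ t₀, pl Φ bR bT ((t, n, σ), j) F = lpl Φ bR bT n σ F j := by
  induction j with
  | zero => exact ⟨0, fun t _ => rfl⟩
  | succ j ih =>
    obtain ⟨t₀, h0⟩ := ih
    obtain ⟨t₁, h1⟩ := pstep_lim (Φ := Φ) (bR := bR) (bT := bT) n (lpl Φ bR bT n σ F j) F
    refine ⟨max t₀ t₁, fun t ht => ?_⟩
    rw [pl_succ, h0 t (le_trans (le_max_left _ _) ht), h1 t (le_trans (le_max_right _ _) ht),
      lpl_succ]

theorem nst_run {n : ℕ} {st : St} {o : Option ℕ} {F : ℕ → ℕ}
    (h : (nst Φ bR bT ((n, st), o) F).2.2 = 0) :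
    st.2.2 = 0 ∧ bR (n, st.2.1 ++ [nx F st.1]) = true ∧ o.isSome = true ∧
      ofN (o.getD 0) = pre (od F) (ofN (o.getD 0)).length ∧
      bT (n, Φ n (jn (ev F) (ofN (o.getD 0)))) = true ∧
      nst Φ bR bT ((n, st), o) F = (ofN (o.getD 0), st.2.1 ++ [nx F st.1], 0) := by
  unfold nst at h ⊢
  cases h0 : zB st.2.2 with
  | true =>
    simp only [h0, cond_true] at h ⊢
    cases hr : bR (n, st.2.1 ++ [nx F st.1]) with
    | false =>
      rw [hr] at h
      simp only [cond_false] at h
      exact absurd h (by decide)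
    | true =>
      rw [hr] at h
      simp only [cond_true] at h ⊢
      cases ho : o.isSome with
      | false =>
        rw [ho] at h
        simp only [cond_false] at h
        exact absurd h (by decide)
      | true =>
        rw [ho] at h
        simp only [cond_true] at h ⊢
        unfold cont at h ⊢
        simp only at h ⊢
        cases hp : eqB (ofN (o.getD 0), pre (od F) (ofN (o.getD 0)).length) with
        | true =>
          rw [hp] at h
          simp only [cond_true] at h ⊢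
          cases ht : bT (n, Φ n (jn (ev F) (ofN (o.getD 0)))) with
          | false =>
            rw [ht] at h
            simp only [cond_false] at h
            exact absurd h (by decide)
          | true => exact ⟨zB_iff.1 h0, trivial, trivial, eqB_iff.1 hp, rfl, rfl⟩
        | false =>
          rw [hp] at h
          simp only [cond_false] at h
          exact absurd h (by decide)
  | false =>
    simp only [h0, cond_false] at h
    rw [zB_iff.2 h] at h0
    exact absurd h0 (by decide)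

theorem pl_sound {t n : ℕ} {σ : List ℕ} {F : ℕ → ℕ} {j : ℕ}
    (h : (pl Φ bR bT ((t, n, σ), j) F).2.2 = 0) :
    pl Φ bR bT ((t, n, σ), j) F = lpl Φ bR bT n σ F j := by
  induction j with
  | zero => rfl
  | succ j ih =>
    rw [pl_succ] at h ⊢
    unfold pstep at h
    obtain ⟨h1, -, h3, -⟩ := nst_run h
    have h4 := ih h1
    rw [lpl_succ, ← h4]
    unfold pstep lstep
    have h5 : look Φ (t, n, pl Φ bR bT ((t, n, σ), j) F) F =
        lookL Φ (cx F n (pl Φ bR bT ((t, n, σ), j) F)) (ev F) := look_sound h3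
    rw [h5]

theorem lpl_stable {n : ℕ} {σ : List ℕ} {F : ℕ → ℕ} {J : ℕ}
    (h : (lpl Φ bR bT n σ F J).2.2 ≠ 0) :
    ∃ t₀, ∀ t ≥ t₀, pl Φ bR bT ((t, n, σ), t) F = lpl Φ bR bT n σ F J := by
  obtain ⟨t₀, h0⟩ := pl_lim (Φ := Φ) (bR := bR) (bT := bT) n σ F J
  refine ⟨max t₀ J, fun t ht => ?_⟩
  have h1 := h0 t (le_trans (le_max_left _ _) ht)
  have h2 : ∀ i, J ≤ i → pl Φ bR bT ((t, n, σ), i) F = lpl Φ bR bT n σ F J := by
    intro i hi
    induction i, hi using Nat.le_induction with
    | base => exact h1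
    | succ i _ ih =>
      rw [pl_succ, ih]
      unfold pstep
      exact nst_ne h
  exact h2 t (le_trans (le_max_right _ _) ht)

end Pool.Agent.Lib.MP_d48993_lc.H30
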