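import Pool.Agent.Lib.MP_d48993_lc.H30.Play
import Pool.Agent.Lib.MP_d48993_lc.Red

/-!
# Hiding with payments: infinite plays and winning plays (helper30)
-/

set_option autoImplicit false

namespace Pool.Agent.Lib.MP_d48993_lc.H30

open MP_8c048d_lc (pre join RecF Sig Clo Cop join_even join_odd join_eta pre_succ length_pre
  pre_congr pre_getElem? pre_take)
open Hide (ev od)
open ResM (jn firstB cp_comp prefPair lePair eqPair)

/-- the map coded by a function -/
def hd (g : ℕ → ℕ) (s : List ℕ) : List ℕ :=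
  (Encodable.decode (α := List ℕ) (g (Encodable.encode s))).getD []

/-- the monotone maps from `R` to `T` that do not decrease lengths -/
def HomC (R T : List ℕ → Prop) : Set (ℕ → ℕ) :=
  {g | ∀ s, R s → T (hd g s) ∧ s.length ≤ (hd g s).length ∧
    ∀ k < s.length + 1, hd g (s.take k) <+: hd g s}

/-- the functionals, the two families of trees -/
structure Game (Φ : ℕ → List ℕ → List ℕ) (bR bT : ℕ × List ℕ → Bool) : Prop where
  comp : Computable₂ Φ
  mono : ∀ n σ τ, σ <+: τ → Φ n σ <+: Φ n τ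
  compR : Computable bR
  compT : Computable bT
  treeR : ∀ n σ τ, σ <+: τ → bR (n, τ) = true → bR (n, σ) = true
  treeT : ∀ n σ τ, σ <+: τ → bT (n, τ) = true → bT (n, σ) = true
  rootT : ∀ n, bT (n, []) = true

variable {Φ : ℕ → List ℕ → List ℕ} {bR bT : ℕ × List ℕ → Bool}

theorem pre_self_prefix {Z : ℕ → ℕ} {s t : List ℕ} (hs : s = pre Z s.length)
    (ht : t = pre Z t.length) (h : s.length ≤ t.length) : s <+: t := by
  rw [hs, ht]
  exact ResM.pre_prefix Z h

theorem pre_of_prefix {Z : ℕ → ℕ} {s t : List ℕ} (ht : t = pre Z t.length) (h : s <+: t) :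
    s = pre Z s.length := by
  have h1 : s = t.take s.length := List.prefix_iff_eq_take.1 h
  have h2 := h.length_le
  rw [ht, pre_take, min_eq_left h2] at h1
  exact h1

theorem pre_snoc {Z : ℕ → ℕ} {s : List ℕ} (hs : s = pre Z s.length) :
    s ++ [Z s.length] = pre Z (s ++ [Z s.length]).length := by
  rw [List.length_append, List.length_singleton, pre_succ, ← hs]

theorem nx_join (Y Z : ℕ → ℕ) (s : List ℕ) : nx (join Y Z) s = Z s.length :=
  join_odd Y Z s.length

/-- what is known when `lookL` gives an answer -/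
theorem lookL_spec {n : ℕ} {s : List ℕ} {L : ℕ} {Y : ℕ → ℕ} {j : ℕ}
    (h : lookL Φ (n, s, L) Y = some j) : s <+: ofN j ∧ L ≤ (Φ n (jn Y (ofN j))).length := by
  have h1 := (lookL_some.1 h).1
  unfold tb at h1
  rw [Bool.and_eq_true] at h1
  exact ⟨prefB_iff.1 h1.1, leB_iff.1 h1.2⟩

theorem lookL_fail {n : ℕ} {s : List ℕ} {L : ℕ} {Y : ℕ → ℕ} (h : lookL Φ (n, s, L) Y = none)
    (τ : List ℕ) (hτ : s <+: τ) : (Φ n (jn Y τ)).length < L := by
  have h1 := lookL_none.1 h (Encodable.encode τ)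
  unfold tb at h1
  simp only [ofN_encode] at h1
  rw [prefB_iff.2 hτ, Bool.true_and] at h1
  by_contra hc
  rw [leB_iff.2 (by omega)] at h1
  exact absurd h1 (by decide)

/-- the invariants of a running play -/
structure Inv (Φ : ℕ → List ℕ → List ℕ) (bR bT : ℕ × List ℕ → Bool) (n : ℕ) (σ : List ℕ)
    (F : ℕ → ℕ) (j : ℕ) (st : St) : Prop where
  e : st.2.2 = 0
  pre : st.1 = pre (od F) st.1.length
  len : st.2.1.length = j
  le : j ≤ st.1.length
  phi : j = 0 ∨ (j ≤ (Φ n (jn (ev F) st.1)).length ∧ bT (n, Φ n (jn (ev F) st.1)) = true ∧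
    bR (n, st.2.1) = true)

theorem inv_zero {n : ℕ} {σ : List ℕ} {F : ℕ → ℕ} (hσ : σ = pre (od F) σ.length) :
    Inv Φ bR bT n σ F 0 (σ, [], 0) :=
  ⟨rfl, hσ, rfl, Nat.zero_le _, Or.inl rfl⟩

theorem nx_od (F : ℕ → ℕ) (s : List ℕ) : nx F s = od F s.length := rfl

theorem inv_succ {n : ℕ} {σ : List ℕ} {F : ℕ → ℕ} {j : ℕ} {st : St}
    (h : Inv Φ bR bT n σ F j st) (h0 : (lstep Φ bR bT n st F).2.2 = 0) :
    Inv Φ bR bT n σ F (j + 1) (lstep Φ bR bT n st F) ∧
      (lstep Φ bR bT n st F).2.1 = st.2.1 ++ [nx F st.1] ∧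
      st.1 <+: (lstep Φ bR bT n st F).1 := by
  unfold lstep at h0 ⊢
  obtain ⟨h1, h2, h3, h4, h5, h6⟩ := nst_run h0
  obtain ⟨i, hi⟩ := Option.isSome_iff_exists.1 h3
  have h7 := lookL_spec (show lookL Φ (n, st.1 ++ [nx F st.1], st.2.1.length + 1) (ev F) = some i
    from hi)
  rw [h6, hi]
  rw [hi] at h4 h5
  simp only [Option.getD_some] at h4 h5 ⊢
  have h8 := h7.1.length_le
  rw [List.length_append, List.length_singleton] at h8
  have h9 := h.le
  refine ⟨⟨rfl, h4, ?_, ?_, Or.inr ⟨?_, h5, h2⟩⟩, trivial, ?_⟩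
  · simp only [List.length_append, List.length_singleton, h.len]
  · simp only
    omega
  · have := h7.2
    rw [h.len] at this
    exact this
  · exact (List.prefix_append _ _).trans h7.1

theorem lpl_prev {n : ℕ} {σ : List ℕ} {F : ℕ → ℕ} {j : ℕ}
    (h : (lpl Φ bR bT n σ F (j + 1)).2.2 = 0) : (lpl Φ bR bT n σ F j).2.2 = 0 := by
  rw [lpl_succ] at h
  unfold lstep at h
  exact (nst_run h).1

theorem lpl_inv {n : ℕ} {σ : List ℕ} {F : ℕ → ℕ} (hσ : σ = pre (od F) σ.length) {j : ℕ}
    (h : (lpl Φ bR bT n σ F j).2.2 = 0) : Inv Φ bR bT n σ F j (lpl Φ bR bT n σ F j) := by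
  induction j with
  | zero => exact inv_zero hσ
  | succ j ih => exact (inv_succ (ih (lpl_prev h)) h).1

/-- the first time the play is over, its string is an initial segment if the status is `1` -/
theorem lpl_one {n : ℕ} {σ : List ℕ} {F : ℕ → ℕ} (hσ : σ = pre (od F) σ.length) {j : ℕ}
    (h : (lpl Φ bR bT n σ F j).2.2 = 1) :
    (lpl Φ bR bT n σ F j).1 = pre (od F) (lpl Φ bR bT n σ F j).1.length := by
  induction j with
  | zero => exact hσ
  | succ j ih =>
    rw [lpl_succ] at h ⊢
    by_cases h0 : (lpl Φ bR bT n σ F j).2.2 = 0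
    · have hI := lpl_inv (Φ := Φ) (bR := bR) (bT := bT) hσ h0
      unfold lstep at h ⊢
      unfold nst at h ⊢
      simp only [zB_iff.2 h0, cond_true] at h ⊢
      cases hr : bR (n, (lpl Φ bR bT n σ F j).2.1 ++ [nx F (lpl Φ bR bT n σ F j).1]) with
      | false =>
        rw [hr] at h
        simp only [cond_false] at h
        exact absurd h (by decide)
      | true =>
        rw [hr] at h
        simp only [cond_true] at h ⊢
        cases ho : (lookL Φ (cx F n (lpl Φ bR bT n σ F j)) (ev F)).isSome with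
        | false =>
          simp only [cond_false, nx_od]
          exact pre_snoc hI.pre
        | true =>
          rw [ho] at h
          simp only [cond_true] at h ⊢
          unfold cont at h ⊢
          simp only at h ⊢
          cases hp : eqB (ofN ((lookL Φ (cx F n (lpl Φ bR bT n σ F j)) (ev F)).getD 0),
              pre (od F) (ofN ((lookL Φ (cx F n (lpl Φ bR bT n σ F j)) (ev F)).getD 0)).length) with
          | true => exact eqB_iff.1 hp
          | false =>
            rw [hp] at h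
            simp only [cond_false] at h
            exact absurd h (by decide)
    · unfold lstep at h ⊢
      rw [nst_ne h0] at h ⊢
      exact ih h

/-- `lookL` in terms of the outcome -/
theorem red_mu_out (P : ℕ → ℕ → (ℕ → ℕ) → Prop)
    (hP : Cop (fun (p : ℕ × ℕ) F => P p.1 p.2 F)) (F : ℕ → ℕ) (hF : ∀ n, ∃ m, P n m F) :
    ∃ f : ℕ → ℕ, (∀ n, P n (f n) F) ∧
      ∀ out : ℕ × ℕ → (ℕ → ℕ) → ℕ, RecF out → Red (fun n => out (n, f n) F) F := by
  obtain ⟨f, hf1, hf2⟩ := redMu P hP F hF
  refine ⟨f, hf2, fun out hout => ?_⟩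
  have h1 : RecF (fun (n : ℕ) G => out (n, od G n) (ev G)) := by
    refine hout.subst (ψ := fun (n : ℕ) G => (n, od G n)) ?_ (Ψ := fun (_ : ℕ) G => ev G)
      Hide.recF_ev
    exact (RecF.of_computable Computable.id).pair
      (RecF.at (Hide.c_dbl1 Computable.id))
  have h2 := red1 _ h1 (join F f)
  have h3 : (fun n => out (n, od (join F f) n) (ev (join F f))) = fun n => out (n, f n) F := by
    funext n
    rw [Hide.od_join, Hide.ev_join]
  rw [h3] at h2
  exact h2.trans (joinS.2.2 F f F Red.rfl hf1)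

/-- An infinite play gives a path of `R n` and a path of `T n`. -/
theorem infinite_play (hG : Game Φ bR bT) {n : ℕ} {σ : List ℕ} {F : ℕ → ℕ}
    (hσ : σ = pre (od F) σ.length) (h : ∀ j, (lpl Φ bR bT n σ F j).2.2 = 0) :
    (∃ f, (∀ k, bR (n, pre f k) = true) ∧ Red f F) ∧
      ∃ g, (∀ k, bT (n, pre g k) = true) ∧ CompBy (Φ n) F g := by
  have hI : ∀ j, Inv Φ bR bT n σ F j (lpl Φ bR bT n σ F j) := fun j => lpl_inv hσ (h j)
  have hu : ∀ j, (lpl Φ bR bT n σ F (j + 1)).2.1 =
      (lpl Φ bR bT n σ F j).2.1 ++ [nx F (lpl Φ bR bT n σ F j).1] :=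
    fun j => (inv_succ (hI j) (h (j + 1))).2.1
  constructor
  · -- the path of `R n`
    have hP : Cop (fun (p : ℕ × ℕ) F => (pl Φ bR bT ((p.2, n, σ), p.1 + 1) F).2.2 = 0) := by
      have h1 : RecF (fun (p : ℕ × ℕ) F => pl Φ bR bT ((p.2, n, σ), p.1 + 1) F) :=
        (recF_pl hG.comp hG.compR hG.compT).comp₁ (f := fun p : ℕ × ℕ => ((p.2, n, σ), p.1 + 1))
          ((Computable.snd.pair (Computable.const _)).pair (Computable.succ.comp Computable.fst))
      have h2 : RecF (fun (p : ℕ × ℕ) F => (pl Φ bR bT ((p.2, n, σ), p.1 + 1) F).2.2) :=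
        RecF.comp (Computable.snd.comp Computable.snd) h1
      refine Cop.of_recF (p := fun x : ℕ => x = 0) h2 ?_
      exact (PrimrecRel.comp (Primrec.eq (α := ℕ)) Primrec.id (Primrec.const 0)).computablePred
    obtain ⟨f, hf, hout⟩ := red_mu_out
      (fun j t F => (pl Φ bR bT ((t, n, σ), j + 1) F).2.2 = 0) hP F fun j => by
      obtain ⟨t₀, ht⟩ := pl_lim (Φ := Φ) (bR := bR) (bT := bT) n σ F (j + 1)
      refine ⟨t₀, ?_⟩
      show (pl Φ bR bT ((t₀, n, σ), j + 1) F).2.2 = 0
      rw [ht t₀ le_rfl]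
      exact h (j + 1)
    have hfs : ∀ j, pl Φ bR bT ((f j, n, σ), j + 1) F = lpl Φ bR bT n σ F (j + 1) :=
      fun j => pl_sound (hf j)
    have ho : RecF (fun (p : ℕ × ℕ) F => ((pl Φ bR bT ((p.2, n, σ), p.1 + 1) F).2.1).getD p.1 0) := by
      have h1 : RecF (fun (p : ℕ × ℕ) F => pl Φ bR bT ((p.2, n, σ), p.1 + 1) F) :=
        (recF_pl hG.comp hG.compR hG.compT).comp₁ (f := fun p : ℕ × ℕ => ((p.2, n, σ), p.1 + 1))
          ((Computable.snd.pair (Computable.const _)).pair (Computable.succ.comp Computable.fst))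
      have h2 : RecF (fun (p : ℕ × ℕ) F => ((pl Φ bR bT ((p.2, n, σ), p.1 + 1) F).2.1, p.1)) :=
        (RecF.comp (Computable.fst.comp Computable.snd) h1).pair
          (RecF.of_computable Computable.fst)
      exact RecF.comp (g := fun x : List ℕ × ℕ => x.1.getD x.2 0)
        ((Primrec.list_getD 0).to_comp) h2
    refine ⟨fun j => ((pl Φ bR bT ((f j, n, σ), j + 1) F).2.1).getD j 0, ?_, hout _ ho⟩
    have hpre : ∀ k, pre (fun j => ((pl Φ bR bT ((f j, n, σ), j + 1) F).2.1).getD j 0) k =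
        (lpl Φ bR bT n σ F k).2.1 := by
      intro k
      induction k with
      | zero => rfl
      | succ k ih =>
        rw [pre_succ, ih, hfs, hu]
        congr 1
        have hlen := (hI k).len
        rw [List.getD_eq_getElem?_getD, List.getElem?_append_right (by omega), hlen]
        simp
    intro k
    rw [hpre]
    rcases Nat.eq_zero_or_pos k with rfl | hk
    · have h1 := (hI 1).phi
      rcases h1 with h1 | ⟨-, -, h1⟩
      · exact absurd h1 (by decide)
      · refine hG.treeR n _ _ ?_ h1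
        rw [hu 0]
        exact List.prefix_append _ _
    · rcases (hI k).phi with h1 | ⟨-, -, h1⟩
      · omega
      · exact h1
  · -- the path of `T n`
    have hjn : ∀ j, jn (ev F) (lpl Φ bR bT n σ F j).1 =
        pre F (2 * (lpl Φ bR bT n σ F j).1.length) := by
      intro j
      conv_lhs => rw [(hI j).pre]
      rw [ResM.jn_pre, Hide.join_ev_od]
    have htot : ∀ m, ∃ k, m ≤ (Φ n (pre F k)).length := by
      intro m
      refine ⟨2 * (lpl Φ bR bT n σ F m).1.length, ?_⟩
      rw [← hjn]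
      rcases (hI m).phi with h1 | ⟨h1, -⟩
      · omega
      · exact h1
    obtain ⟨g, hg⟩ := H84.compBy_of_total (hG.mono n) htot
    refine ⟨g, fun k => ?_, hg⟩
    rcases Nat.eq_zero_or_pos k with rfl | hk
    · exact hG.rootT n
    rcases (hI k).phi with h1 | ⟨h1, h2, -⟩
    · omega
    · refine hG.treeT n _ _ ?_ h2
      rw [hjn] at h1 ⊢
      rw [hg.1]
      exact ResM.pre_prefix g h1

end Pool.Agent.Lib.MP_d48993_lc.H30
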